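import Mathlib

/-!
# Weights maximising the determinant
-/

set_option autoImplicit false

namespace Pool.Agent.SPL

open Matrix

/-- the moment matrix -/
noncomputable def Mw {d : ℕ} (X : Finset (Fin d → ℝ)) (w : (Fin d → ℝ) → ℝ) :
    Matrix (Fin d) (Fin d) ℝ := ∑ x ∈ X, w x • vecMulVec x x

/-- determinant of a multiple of the identity plus a rank one matrix -/
theorem det_smul_one_add {d : ℕ} (hd : 0 < d) (y : Fin d → ℝ) (s a : ℝ) :
    (a • (1 : Matrix (Fin d) (Fin d) ℝ) + s • vecMulVec y y).det =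
      a ^ (d - 1) * (a + s * ∑ i, y i ^ 2) := by
  have hf : Continuous fun a : ℝ =>
      (a • (1 : Matrix (Fin d) (Fin d) ℝ) + s • vecMulVec y y).det := by
    apply Continuous.matrix_det
    exact (continuous_id.smul continuous_const).add continuous_const
  have hg : Continuous fun a : ℝ => a ^ (d - 1) * (a + s * ∑ i, y i ^ 2) := by
    fun_prop
  have h := Continuous.ext_on (dense_compl_singleton (0 : ℝ)) hf hg (fun a ha => ?_)
  · exact congrFun h a
  · have ha' : a ≠ 0 := ha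
    show (a • (1 : Matrix (Fin d) (Fin d) ℝ) + s • vecMulVec y y).det =
      a ^ (d - 1) * (a + s * ∑ i, y i ^ 2)
    have h1 : a • (1 : Matrix (Fin d) (Fin d) ℝ) + s • vecMulVec y y =
        a • (1 + replicateCol Unit ((a⁻¹ * s) • y) * replicateRow Unit y) := by
      rw [← vecMulVec_eq Unit, smul_vecMulVec, smul_add, smul_smul, ← mul_assoc,
        mul_inv_cancel₀ ha', one_mul]
    rw [h1, det_smul, det_one_add_replicateCol_mul_replicateRow, Fintype.card_fin,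
      dotProduct_smul, smul_eq_mul]
    have h2 : y ⬝ᵥ y = ∑ i, y i ^ 2 := by
      simp only [dotProduct, pow_two]
    rw [h2]
    obtain ⟨k, rfl⟩ : ∃ k, d = k + 1 := ⟨d - 1, by omega⟩
    rw [Nat.add_sub_cancel, pow_succ]
    field_simp

/-- perturbation of the determinant -/
theorem det_perturb {d : ℕ} (hd : 0 < d) (B : Matrix (Fin d) (Fin d) ℝ) (hB : IsUnit B.det)
    (x : Fin d → ℝ) (s : ℝ) :
    ((1 - s) • (B * Bᵀ) + s • vecMulVec x x).det =
      (B * Bᵀ).det * ((1 - s) ^ (d - 1) * (1 - s + s * ∑ i, (B⁻¹ *ᵥ x) i ^ 2)) := by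
  have hx : B *ᵥ (B⁻¹ *ᵥ x) = x := by
    rw [mulVec_mulVec, mul_nonsing_inv _ hB, one_mulVec]
  have h1 : (1 - s) • (B * Bᵀ) + s • vecMulVec x x =
      B * ((1 - s) • (1 : Matrix (Fin d) (Fin d) ℝ) +
        s • vecMulVec (B⁻¹ *ᵥ x) (B⁻¹ *ᵥ x)) * Bᵀ := by
    rw [mul_add, add_mul, Matrix.mul_smul, Matrix.mul_smul, Matrix.smul_mul, Matrix.smul_mul,
      mul_one, mul_vecMulVec, vecMulVec_mul, vecMul_transpose, hx]
  rw [h1, det_mul, det_mul, det_smul_one_add hd, det_mul]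
  ring

theorem DoptB_quad {d : ℕ} (X : Finset (Fin d → ℝ)) (w : X → ℝ) (y : Fin d → ℝ) :
    y ⬝ᵥ ((∑ x : X, w x • vecMulVec x.1 x.1) *ᵥ y) = ∑ x : X, w x * (x.1 ⬝ᵥ y) ^ 2 := by
  rw [Matrix.sum_mulVec, dotProduct_sum]
  refine Finset.sum_congr rfl fun x _ => ?_
  rw [Matrix.smul_mulVec, dotProduct_smul, Matrix.vecMulVec_mulVec, smul_eq_mul]
  rw [op_smul_eq_smul, dotProduct_smul, smul_eq_mul, dotProduct_comm y x.1]
  ring

theorem DoptB_symm {d : ℕ} (X : Finset (Fin d → ℝ)) (w : X → ℝ) :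
    (∑ x : X, w x • vecMulVec x.1 x.1).IsHermitian := by
  unfold Matrix.IsHermitian
  rw [Matrix.conjTranspose_sum]
  refine Finset.sum_congr rfl fun x _ => ?_
  rw [Matrix.conjTranspose_smul, Matrix.conjTranspose_vecMulVec]
  simp

theorem DoptB_num {d : ℕ} (hd : 0 < d) {q : ℝ} (h : (d : ℝ) < q)
    (hall : ∀ s : ℝ, 0 < s → s < 1 → (1 - s) ^ (d - 1) * (1 - s + s * q) ≤ 1) : False := by
  have hd1 : (1 : ℝ) ≤ d := by exact_mod_cast hd
  set A : ℝ := ((d : ℝ) - 1) * (q - 1) with hA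
  have hA0 : 0 ≤ A := mul_nonneg (by linarith) (by linarith)
  set s : ℝ := min (1 / 2) ((q - d) / (2 * (A + 1))) with hs
  have hs0 : 0 < s := lt_min (by norm_num) (div_pos (by linarith) (by linarith))
  have hs1 : s ≤ 1 / 2 := min_le_left _ _
  have hs2 : s * (2 * (A + 1)) ≤ q - d := by
    have : s ≤ (q - d) / (2 * (A + 1)) := min_le_right _ _
    rwa [le_div_iff₀ (by linarith)] at this
  have h1 := hall s hs0 (by linarith)
  have h2 : 1 + ((d - 1 : ℕ) : ℝ) * (-s) ≤ (1 + (-s)) ^ (d - 1) :=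
    one_add_mul_le_pow (by linarith) _
  have h3 : ((d - 1 : ℕ) : ℝ) = (d : ℝ) - 1 := by
    rw [Nat.cast_sub hd, Nat.cast_one]
  rw [h3] at h2
  have h4 : (1 + ((d : ℝ) - 1) * (-s)) * (1 - s + s * q) ≤ (1 + (-s)) ^ (d - 1) * (1 - s + s * q) :=
    mul_le_mul_of_nonneg_right h2 (by nlinarith)
  have h5 : (1 + (-s)) ^ (d - 1) * (1 - s + s * q) ≤ 1 := h1
  have h6 : (1 + ((d : ℝ) - 1) * (-s)) * (1 - s + s * q) = 1 + s * ((q - d) - A * s) := by
    rw [hA]; ring
  have h7 : 0 < s * ((q - d) - A * s) := by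
    refine mul_pos hs0 ?_
    nlinarith
  linarith

open scoped MatrixOrder in
theorem exists_dopt {d : ℕ} (hd : 0 < d) (X : Finset (Fin d → ℝ))
    (hspan : Submodule.span ℝ (X : Set (Fin d → ℝ)) = ⊤) :
    ∃ (w : (Fin d → ℝ) → ℝ) (B : Matrix (Fin d) (Fin d) ℝ), (∀ x ∈ X, 0 ≤ w x) ∧
      ∑ x ∈ X, w x = 1 ∧ IsUnit B.det ∧ Mw X w = B * Bᵀ ∧
      ∀ x ∈ X, ∑ i, (B⁻¹ *ᵥ x) i ^ 2 ≤ d := by
  classical
  have hXne : X.Nonempty := by
    by_contra h
    rw [Finset.not_nonempty_iff_eq_empty] at h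
    rw [h, Finset.coe_empty, Submodule.span_empty] at hspan
    have h1 : (Pi.single (⟨0, hd⟩ : Fin d) (1 : ℝ) : Fin d → ℝ) ∈ (⊥ : Submodule ℝ (Fin d → ℝ)) := by
      rw [hspan]; exact Submodule.mem_top
    rw [Submodule.mem_bot] at h1
    have h2 := congrFun h1 ⟨0, hd⟩
    simp at h2
  have : Nonempty X := hXne.to_subtype
  let Mx : (X → ℝ) → Matrix (Fin d) (Fin d) ℝ := fun w => ∑ x : X, w x • vecMulVec x.1 x.1
  have hcont : Continuous fun w => (Mx w).det := by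
    refine Continuous.matrix_det ?_
    refine continuous_finsetSum _ fun x _ => ?_
    exact (continuous_apply x).smul continuous_const
  obtain ⟨x1⟩ := (inferInstance : Nonempty X)
  obtain ⟨w0, hw0, hmax⟩ := (isCompact_stdSimplex ℝ X).exists_isMaxOn
    ⟨_, single_mem_stdSimplex ℝ x1⟩ hcont.continuousOn
  -- the uniform weights
  have hu : (fun _ => (Fintype.card X : ℝ)⁻¹ : X → ℝ) ∈ stdSimplex ℝ X := by
    refine ⟨fun _ => by positivity, ?_⟩
    rw [Finset.sum_const, nsmul_eq_mul, Finset.card_univ, mul_inv_cancel₀]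
    exact_mod_cast Fintype.card_ne_zero
  have hupos : (Mx fun _ => (Fintype.card X : ℝ)⁻¹).PosDef := by
    refine PosDef.of_dotProduct_mulVec_pos (DoptB_symm X _) fun y hy => ?_
    rw [star_trivial, DoptB_quad]
    by_contra hle
    push Not at hle
    have hnn : ∀ x ∈ (Finset.univ : Finset X), 0 ≤ (Fintype.card X : ℝ)⁻¹ * (x.1 ⬝ᵥ y) ^ 2 :=
      fun x _ => by positivity
    have hz := (Finset.sum_eq_zero_iff_of_nonneg hnn).1 (le_antisymm hle (Finset.sum_nonneg hnn))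
    have hz2 : ∀ x ∈ X, x ⬝ᵥ y = 0 := by
      intro x hx
      have h1 := hz ⟨x, hx⟩ (Finset.mem_univ _)
      have h2 : (0 : ℝ) < (Fintype.card X : ℝ)⁻¹ := by
        have : 0 < Fintype.card X := Fintype.card_pos
        positivity
      rcases mul_eq_zero.1 h1 with h3 | h3
      · exact absurd h3 h2.ne'
      · exact pow_eq_zero_iff (two_ne_zero) |>.1 h3
    let ψ : (Fin d → ℝ) →ₗ[ℝ] ℝ :=
      { toFun := fun x => x ⬝ᵥ y
        map_add' := fun a b => add_dotProduct a b y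
        map_smul' := fun c a => smul_dotProduct c a y }
    have h3 : Submodule.span ℝ (X : Set (Fin d → ℝ)) ≤ LinearMap.ker ψ :=
      Submodule.span_le.2 fun x hx => LinearMap.mem_ker.2 (hz2 x hx)
    rw [hspan] at h3
    have h4 : y ⬝ᵥ y = 0 := LinearMap.mem_ker.1 (h3 (Submodule.mem_top (x := y)))
    exact hy (dotProduct_self_eq_zero.1 h4)
  have hdet0 : 0 < (Mx w0).det := lt_of_lt_of_le hupos.det_pos (hmax hu)
  have hpsd : (Mx w0).PosSemidef := by
    refine PosSemidef.of_dotProduct_mulVec_nonneg (DoptB_symm X _) fun y => ?_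
    rw [star_trivial, DoptB_quad]
    exact Finset.sum_nonneg fun x _ => mul_nonneg (hw0.1 x) (sq_nonneg _)
  set B : Matrix (Fin d) (Fin d) ℝ := CFC.sqrt (Mx w0) with hB
  have hBB : B * B = Mx w0 := CFC.sqrt_mul_sqrt_self (Mx w0) hpsd.nonneg
  have hBT : Bᵀ = B := by
    have h1 : B.IsHermitian := (CFC.sqrt_nonneg (Mx w0)).posSemidef.isHermitian
    have h2 := h1.eq
    rwa [Matrix.conjTranspose_eq_transpose_of_trivial] at h2
  have hBu : IsUnit B.det := by
    rw [isUnit_iff_ne_zero]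
    intro h0
    rw [← hBB, det_mul, h0, mul_zero] at hdet0
    exact lt_irrefl _ hdet0
  let wf : (X → ℝ) → (Fin d → ℝ) → ℝ := fun w x => if h : x ∈ X then w ⟨x, h⟩ else 0
  have hwf : ∀ (w : X → ℝ) (x : X), wf w x.1 = w x := by
    intro w x
    simp only [wf, x.2, dif_pos]
  have hMw : Mw X (wf w0) = Mx w0 := by
    unfold Mw
    rw [← Finset.sum_coe_sort]
    exact Finset.sum_congr rfl fun x _ => by rw [hwf]
  refine ⟨wf w0, B, ?_, ?_, hBu, ?_, ?_⟩
  · intro x hx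
    rw [hwf w0 ⟨x, hx⟩]
    exact hw0.1 _
  · rw [← Finset.sum_coe_sort, ← hw0.2]
    exact Finset.sum_congr rfl fun x _ => hwf _ _
  · rw [hMw, hBT, hBB]
  · intro x hx
    by_contra hlt
    push Not at hlt
    refine DoptB_num hd hlt fun s hs0 hs1 => ?_
    have hmem : (1 - s) • w0 + s • (Pi.single (⟨x, hx⟩ : X) (1 : ℝ) : X → ℝ) ∈ stdSimplex ℝ X :=
      (convex_stdSimplex ℝ X) hw0 (single_mem_stdSimplex ℝ _) (by linarith) hs0.le (by ring)
    have h1 := hmax hmem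
    have h2 : Mx ((1 - s) • w0 + s • (Pi.single (⟨x, hx⟩ : X) (1 : ℝ) : X → ℝ)) =
        (1 - s) • (B * Bᵀ) + s • vecMulVec x x := by
      rw [hBT, hBB]
      show ∑ z : X, ((1 - s) • w0 + s • (Pi.single (⟨x, hx⟩ : X) (1 : ℝ) : X → ℝ)) z •
        vecMulVec z.1 z.1 = (1 - s) • (∑ z : X, w0 z • vecMulVec z.1 z.1) + s • vecMulVec x x
      rw [Finset.smul_sum]
      have h3 : s • vecMulVec x x = ∑ z : X, (s • (Pi.single (⟨x, hx⟩ : X) (1 : ℝ) : X → ℝ)) z •
          vecMulVec z.1 z.1 := by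
        rw [Finset.sum_eq_single (⟨x, hx⟩ : X)]
        · simp
        · intro b _ hb
          simp [Pi.single_eq_of_ne hb]
        · intro h; exact absurd (Finset.mem_univ _) h
      rw [h3, ← Finset.sum_add_distrib]
      refine Finset.sum_congr rfl fun z _ => ?_
      rw [Pi.add_apply, add_smul, Pi.smul_apply, smul_eq_mul, mul_smul]
    have h4 : (Mx ((1 - s) • w0 + s • (Pi.single (⟨x, hx⟩ : X) (1 : ℝ) : X → ℝ))).det ≤
        (Mx w0).det := h1
    rw [h2, det_perturb hd B hBu x s, hBT, hBB] at h4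
    have h5 : (Mx w0).det * ((1 - s) ^ (d - 1) * (1 - s + s * ∑ i, (B⁻¹ *ᵥ x) i ^ 2)) ≤
        (Mx w0).det * 1 := by rw [mul_one]; exact h4
    exact le_of_mul_le_mul_left h5 hdet0

end Pool.Agent.SPL
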