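import Pool.Agent.SPL.Signs
import Pool.Agent.SPL.Dopt

/-!
# The Figiel, Lindenstrauss and Milman inequality for two dual families of vectors
-/

set_option autoImplicit false

namespace Pool.Agent.SPL

open Matrix

theorem sgn_dot_self {d : ℕ} (s : Fin d → Bool) : sgn s ⬝ᵥ sgn s = d := by
  have h : ∀ i, sgn s i * sgn s i = 1 := by
    intro i
    unfold sgn
    split_ifs <;> norm_num
  simp only [dotProduct, h]
  simp

theorem dot_Mw {d : ℕ} (X : Finset (Fin d → ℝ)) (w : (Fin d → ℝ) → ℝ) (c : Fin d → ℝ) :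
    c ⬝ᵥ (Mw X w *ᵥ c) = ∑ x ∈ X, w x * (c ⬝ᵥ x) ^ 2 := by
  unfold Mw
  rw [sum_mulVec, dotProduct_sum]
  apply Finset.sum_congr rfl
  intro x _
  rw [smul_mulVec, dotProduct_smul, smul_eq_mul]
  congr 1
  have h : vecMulVec x x *ᵥ c = (x ⬝ᵥ c) • x := by
    ext i
    simp only [mulVec, vecMulVec_apply, dotProduct, Pi.smul_apply, smul_eq_mul, Finset.sum_mul]
    apply Finset.sum_congr rfl
    intro j _
    ring
  rw [h, dotProduct_smul, smul_eq_mul, dotProduct_comm x c, sq]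

theorem flm_core {d : ℕ} (hd : 0 < d) (X C : Finset (Fin d → ℝ)) (hsym : ∀ x ∈ X, -x ∈ X)
    (hspan : Submodule.span ℝ (X : Set (Fin d → ℝ)) = ⊤)
    (hC : ∀ c ∈ C, ∀ x ∈ X, c ⬝ᵥ x ≤ 1)
    (hdual : ∀ (g h : Fin d → ℝ) (s t : ℝ), 0 ≤ s → 0 ≤ t → (∀ c ∈ C, c ⬝ᵥ g ≤ s) →
      (∀ x ∈ X, x ⬝ᵥ h ≤ t) → g ⬝ᵥ h ≤ s * t) :
    (d : ℝ) ≤ 4 * Real.log (3 * (C.card : ℝ)) * Real.log (3 * (X.card : ℝ)) := by
  obtain ⟨w, B, hw0, hw1, hB, hM, hx⟩ := exists_dopt hd X hspan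
  have hd' : (0 : ℝ) < d := by exact_mod_cast hd
  -- the vectors `Bᵀ c`
  have hu : ∀ c ∈ C, ∑ i, (Bᵀ *ᵥ c) i ^ 2 ≤ (1 : ℝ) := by
    intro c hc
    have h1 : ∑ i, (Bᵀ *ᵥ c) i ^ 2 = c ⬝ᵥ (Mw X w *ᵥ c) := by
      rw [hM, ← mulVec_mulVec, dotProduct_mulVec, ← mulVec_transpose]
      simp only [dotProduct, sq]
    rw [h1, dot_Mw, ← hw1]
    apply Finset.sum_le_sum
    intro x hxX
    have h2 := hC c hc x hxX
    have h3 := hC c hc (-x) (hsym x hxX)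
    rw [dotProduct_neg] at h3
    have h4 : (c ⬝ᵥ x) ^ 2 ≤ 1 := by
      rw [sq_le_one_iff_abs_le_one, abs_le]
      constructor <;> linarith
    calc w x * (c ⬝ᵥ x) ^ 2 ≤ w x * 1 := mul_le_mul_of_nonneg_left h4 (hw0 x hxX)
      _ = w x := mul_one _
  obtain ⟨s, hs1, hs2⟩ := exists_signs C X (fun c => Bᵀ *ᵥ c) (fun x => B⁻¹ *ᵥ x) 1 d one_pos hd'
    hu hx
  have hlog : ∀ k : ℕ, 0 ≤ Real.log (3 * (k : ℝ)) := by
    intro k
    rcases Nat.eq_zero_or_pos k with hk | hk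
    · subst hk
      simp
    · apply Real.log_nonneg
      have : (1 : ℝ) ≤ k := by exact_mod_cast hk
      linarith
  have hgh : (B *ᵥ sgn s) ⬝ᵥ (B⁻¹ᵀ *ᵥ sgn s) = d := by
    rw [dotProduct_mulVec, vecMul_transpose, mulVec_mulVec, nonsing_inv_mul B hB, one_mulVec]
    exact sgn_dot_self s
  have hmain := hdual (B *ᵥ sgn s) (B⁻¹ᵀ *ᵥ sgn s) (√(2 * 1 * Real.log (3 * (C.card : ℝ))))
    (√(2 * d * Real.log (3 * (X.card : ℝ)))) (Real.sqrt_nonneg _) (Real.sqrt_nonneg _) ?_ ?_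
  · rw [hgh] at hmain
    have h5 : (d : ℝ) ^ 2 ≤ (√(2 * 1 * Real.log (3 * (C.card : ℝ))) *
        √(2 * d * Real.log (3 * (X.card : ℝ)))) ^ 2 :=
      pow_le_pow_left₀ hd'.le hmain 2
    have hlC := hlog C.card
    have hlX := hlog X.card
    rw [mul_pow, Real.sq_sqrt (by positivity), Real.sq_sqrt (by positivity)] at h5
    have h6 : (d : ℝ) * d ≤ d *
        (4 * Real.log (3 * (C.card : ℝ)) * Real.log (3 * (X.card : ℝ))) := by
      nlinarith [h5]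
    exact le_of_mul_le_mul_left h6 hd'
  · intro c hc
    have h := hs1 c hc
    rw [dotProduct_mulVec, ← mulVec_transpose]
    exact h
  · intro x hxX
    have h := hs2 x hxX
    rw [dotProduct_mulVec, vecMul_transpose]
    exact h

end Pool.Agent.SPL
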