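import Pool.Agent.SPL.FaceLat

/-!
# Relative complements in the face lattice
-/

set_option autoImplicit false

namespace Pool.Agent.SPL

open Pool.Agent.K3R

variable {V : Type} [AddCommGroup V] [Module ℝ V]

/-- relative complement of `D` in the interval between the empty face and `C` -/
theorem exists_compl_empty {S D C : Set V} (hS : S.Finite) (hD : D = ∅ ∨ IsF S D)
    (hC : IsF S C) (hDC : D ⊆ C) :
    ∃ X, (X = ∅ ∨ IsF S X) ∧ X ⊆ C ∧ X ∩ D = ∅ ∧
      ∀ C', (C' = ∅ ∨ IsF S C') → X ⊆ C' → D ⊆ C' → C ⊆ C' := by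
  have hfin : {X | (X = ∅ ∨ IsF S X) ∧ X ⊆ C ∧ X ∩ D = ∅}.Finite :=
    (hS.subset hC.1).finite_subsets.subset fun X hX => hX.2.1
  have hne : {X | (X = ∅ ∨ IsF S X) ∧ X ⊆ C ∧ X ∩ D = ∅}.Nonempty :=
    ⟨∅, Or.inl rfl, Set.empty_subset _, Set.empty_inter _⟩
  obtain ⟨X, ⟨hX, hXC, hXD⟩, hmax⟩ := Set.exists_max_image _ (fun X => X.ncard) hfin hne
  refine ⟨X, hX, hXC, hXD, ?_⟩
  intro C₀ hC₀ hXC₀ hDC₀
  by_contra hcon
  -- the set `X` is empty: every face of `C` disjoint from `D` is empty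
  have hempty : X = ∅ → ∀ Y, IsF S Y → Y ⊆ C → Y ∩ D = ∅ → False := by
    intro h0 Y hY hYC hYD
    have h1 := hmax Y ⟨Or.inr hY, hYC, hYD⟩
    have h2 : 0 < Y.ncard := (Set.ncard_pos (hS.subset hY.1)).2 hY.2.1
    simp only [h0, Set.ncard_empty] at h1
    omega
  rcases hX with hX | hX
  · rcases hC₀ with hC₀ | hC₀
    · rw [hC₀] at hDC₀
      refine hempty hX C hC subset_rfl ?_
      rw [Set.subset_empty_iff.1 hDC₀, Set.inter_empty]
    · obtain ⟨-, -, b, cb, hb1, hb2⟩ := hC₀
      obtain ⟨v, hv, hmin⟩ := Set.exists_min_image C (fun x => b x) (hS.subset hC.1) hC.2.1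
      have hvlt : b v < cb := by
        obtain ⟨x, hx, hx0⟩ := Set.not_subset.1 hcon
        exact lt_of_le_of_lt (hmin x hx) (hb2 x (hC.1 hx) hx0)
      have hY : IsF C {x | x ∈ C ∧ b x = b v} := by
        refine ⟨fun x hx => hx.1, ⟨v, hv, rfl⟩, -b, -b v, ?_, ?_⟩
        · intro x hx
          rw [LinearMap.neg_apply, hx.2]
        · intro x hx hx'
          rw [LinearMap.neg_apply, neg_lt_neg_iff]
          exact lt_of_le_of_ne (hmin x hx) fun h => hx' ⟨hx, h.symm⟩
      refine hempty hX _ (IsF.trans hS hC hY) (fun x hx => hx.1) ?_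
      rw [Set.eq_empty_iff_forall_notMem]
      rintro x ⟨hx, hxD⟩
      have h1 := hb1 x (hDC₀ hxD)
      rw [hx.2] at h1
      exact absurd h1 hvlt.ne
  · have hC₀F : IsF S C₀ := by
      rcases hC₀ with h | h
      · obtain ⟨x, hx⟩ := hX.2.1
        have := hXC₀ hx
        rw [h] at this
        exact absurd this (Set.notMem_empty x)
      · exact h
    obtain ⟨hXS, hXne, a, ca, ha1, ha2⟩ := hX
    obtain ⟨hC₀S, -, b, cb, hb1, hb2⟩ := hC₀F
    obtain ⟨hCS, -, g, cg, hg1, hg2⟩ := hC
    have hT : (C \ C₀).Nonempty := by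
      by_contra h
      rw [Set.not_nonempty_iff_eq_empty, Set.sdiff_eq_empty] at h
      exact hcon h
    have hTfin : (C \ C₀).Finite := (hS.subset hCS).subset Set.sdiff_subset
    obtain ⟨v, hv, hmin⟩ := Set.exists_min_image (C \ C₀) (fun x => (a x - ca) / (b x - cb))
      hTfin hT
    set t : ℝ := (a v - ca) / (b v - cb) with ht
    have hbneg : ∀ x ∈ C \ C₀, b x - cb < 0 := fun x hx => by
      have := hb2 x (hCS hx.1) hx.2
      linarith
    -- values of a - t b on C
    have hval : ∀ x ∈ C \ C₀, (a x - ca) - t * (b x - cb) ≤ 0 := by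
      intro x hx
      have h1 := hmin x hx
      have h2 := hbneg x hx
      have h3 : t * (b x - cb) ≥ (a x - ca) / (b x - cb) * (b x - cb) :=
        mul_le_mul_of_nonpos_right h1 h2.le
      rw [div_mul_cancel₀ _ h2.ne] at h3
      linarith
    have hvv : (a v - ca) - t * (b v - cb) = 0 := by
      have h2 := hbneg v hv
      rw [ht, div_mul_cancel₀ _ h2.ne, sub_self]
    obtain ⟨Λ, -, hΛ⟩ := exists_large (T := S \ C) (hS.subset Set.sdiff_subset)
      (fun x => cg - g x) (fun x => (a x - ca) - t * (b x - cb))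
      (fun x hx => by have := hg2 x hx.1 hx.2; linarith)
    set X' : Set V := {x | x ∈ C ∧ (a x - ca) - t * (b x - cb) = 0} with hX'
    have hXX' : X ⊆ X' := by
      intro x hx
      refine ⟨hXC hx, ?_⟩
      rw [ha1 x hx, hb1 x (hXC₀ hx)]
      ring
    have hX'F : IsF S X' := by
      refine ⟨fun x hx => hCS hx.1, hXne.mono hXX', a - t • b + Λ • g, ca - t * cb + Λ * cg,
        ?_, ?_⟩
      · intro x hx
        have h1 := hx.2
        have h2 := hg1 x hx.1
        simp only [LinearMap.add_apply, LinearMap.sub_apply, LinearMap.smul_apply, smul_eq_mul]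
        rw [h2]
        linarith
      · intro x hx hx'
        simp only [LinearMap.add_apply, LinearMap.sub_apply, LinearMap.smul_apply, smul_eq_mul]
        by_cases hxC : x ∈ C
        · rw [hg1 x hxC]
          have h1 : (a x - ca) - t * (b x - cb) ≠ 0 := fun h => hx' ⟨hxC, h⟩
          have h2 : (a x - ca) - t * (b x - cb) ≤ 0 := by
            by_cases hx0 : x ∈ C₀
            · rw [hb1 x hx0, sub_self, mul_zero, sub_zero]
              have := IsF.le_max ha1 ha2 hx
              linarith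
            · exact hval x ⟨hxC, hx0⟩
          have h3 := lt_of_le_of_ne h2 h1
          linarith
        · have := hΛ x ⟨hx, hxC⟩
          linarith
    have hX'D : X' ∩ D = ∅ := by
      rw [← hXD]
      refine subset_antisymm ?_ (Set.inter_subset_inter_left _ hXX')
      rintro x ⟨hx, hxD⟩
      refine ⟨?_, hxD⟩
      by_contra hxX
      have h1 := ha2 x (hCS hx.1) hxX
      have h2 := hx.2
      rw [hb1 x (hDC₀ hxD)] at h2
      linarith
    have hlt : X.ncard < X'.ncard := by
      apply Set.ncard_lt_ncard ⟨hXX', ?_⟩ (hS.subset hX'F.1)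
      intro h
      have h1 : v ∈ X' := ⟨hv.1, hvv⟩
      exact hv.2 (hXC₀ (h h1))
    have := hmax X' ⟨Or.inr hX'F, fun x hx => hx.1, hX'D⟩
    omega

theorem rc_FL (S : Set V) [hS : Fact S.Finite] : RC (FL S) := by
  intro x y z hxy hyz
  have hle : ∀ w : FL S, w ≤ z → (∀ C' : FL S, w ≤ C' → y ≤ C' → z ≤ C') → w ⊔ y = z :=
    fun w h1 h2 => le_antisymm (sup_le h1 hyz) (h2 _ le_sup_left le_sup_right)
  rcases Set.eq_empty_or_nonempty z.1 with hz | hz
  · have hy : y = z := by
      refine le_antisymm hyz ?_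
      rw [FL.le_def, hz]
      exact Set.empty_subset _
    have hx : x = y := by
      refine le_antisymm hxy ?_
      rw [FL.le_def, hy, hz]
      exact Set.empty_subset _
    exact ⟨y, by rw [inf_idem, hx], by rw [sup_idem, hy]⟩
  · have hzF := FL.isF hz
    rcases Set.eq_empty_or_nonempty x.1 with hx | hx
    · obtain ⟨X, hX, hXz, hXy, hmin⟩ := exists_compl_empty hS.out y.2 hzF hyz
      refine ⟨⟨X, hX⟩, ?_, hle _ hXz fun C' h1 h2 => hmin C'.1 C'.2 h1 h2⟩
      apply FL.ext
      rw [FL.inf_val', hx]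
      exact hXy
    · have hyne : y.1.Nonempty := hx.mono hxy
      obtain ⟨X, hX, hXz, hXy, hmin⟩ := exists_compl hS.out (FL.isF hx) (FL.isF hyne) hzF hxy hyz
      refine ⟨⟨X, Or.inr hX⟩, ?_, hle _ hXz fun C' h1 h2 =>
        hmin C'.1 (FL.isF (hyne.mono h2)) h1 h2⟩
      apply FL.ext
      rw [FL.inf_val']
      exact hXy

end Pool.Agent.SPL
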