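import Mathlib

/-!
# Numerical part
-/

set_option autoImplicit false

namespace Pool.Agent.SPL

private lemma clog_bound {d : ℕ} (hd : 2 ≤ d) :
    ((Nat.clog 2 (d + 1) : ℕ) : ℝ) * Real.log 2 ≤ Real.log d + 2 * Real.log 2 := by
  have hd0 : (0 : ℝ) < d := by exact_mod_cast (by omega : 0 < d)
  have h1 : 2 ^ (Nat.clog 2 (d + 1) - 1) < d + 1 := Nat.pow_pred_clog_lt_self (by norm_num) (by omega)
  have hpos : 0 < Nat.clog 2 (d + 1) := Nat.clog_pos (by norm_num) (by omega)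
  obtain ⟨l, hl⟩ : ∃ l, Nat.clog 2 (d + 1) = l + 1 := ⟨_, (Nat.succ_pred_eq_of_pos hpos).symm⟩
  rw [hl, Nat.add_sub_cancel] at h1
  have h2 : (2 : ℝ) ^ l ≤ 2 * d := by
    have : 2 ^ l ≤ 2 * d := by omega
    exact_mod_cast this
  have h3 := Real.log_le_log (by positivity) h2
  rw [Real.log_pow, Real.log_mul (by norm_num) hd0.ne'] at h3
  rw [hl]
  push_cast
  linarith

private lemma log3_le : 2 * Real.log 3 ≤ 4 * Real.log 2 := by
  have h : Real.log (3 ^ 2) ≤ Real.log (2 ^ 4) := Real.log_le_log (by norm_num) (by norm_num)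
  rw [Real.log_pow, Real.log_pow] at h
  exact_mod_cast h

private lemma sqrt_bound {d K : ℕ} (hd : 2 ≤ d)
    (h : (d : ℝ) ≤
      4 * (Real.log 3 + (((K + 2) * (2 * Nat.clog 2 (d + 1) + 7) : ℕ) : ℝ) * Real.log 2) ^ 2) :
    √(d : ℝ) ≤ 2 * Real.log 3 + 2 * (K + 2) * (2 * Real.log d + 11 * Real.log 2) := by
  have hl2 : 0 < Real.log 2 := Real.log_pos (by norm_num)
  have hl3 : 0 < Real.log 3 := Real.log_pos (by norm_num)
  have hc := clog_bound hd
  set c : ℝ := ((Nat.clog 2 (d + 1) : ℕ) : ℝ) with hcdef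
  have hc0 : 0 ≤ c := by positivity
  have hE : (((K + 2) * (2 * Nat.clog 2 (d + 1) + 7) : ℕ) : ℝ) * Real.log 2 ≤
      (K + 2) * (2 * Real.log d + 11 * Real.log 2) := by
    push_cast
    rw [← hcdef, mul_assoc]
    refine mul_le_mul_of_nonneg_left ?_ (by positivity)
    nlinarith
  have hE0 : 0 ≤ (((K + 2) * (2 * Nat.clog 2 (d + 1) + 7) : ℕ) : ℝ) * Real.log 2 := by positivity
  set E : ℝ := (((K + 2) * (2 * Nat.clog 2 (d + 1) + 7) : ℕ) : ℝ) * Real.log 2
  have h4 : √(d : ℝ) ≤ 2 * (Real.log 3 + E) := by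
    rw [show 4 * (Real.log 3 + E) ^ 2 = (2 * (Real.log 3 + E)) ^ 2 by ring] at h
    calc √(d : ℝ) ≤ √((2 * (Real.log 3 + E)) ^ 2) := Real.sqrt_le_sqrt h
      _ = 2 * (Real.log 3 + E) := Real.sqrt_sq (by positivity)
  linarith

/-- the final numerical lemma -/
theorem num {d N : ℕ} (hd : 2 ≤ d) (hN : 2 ^ (d + 1) ≤ N + 1)
    (h : ∀ K : ℕ, N + 1 ≤ 2 ^ (d + 1 + K) → (d : ℝ) ≤
      4 * (Real.log 3 + (((K + 2) * (2 * Nat.clog 2 (d + 1) + 7) : ℕ) : ℝ) * Real.log 2) ^ 2) :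
    (2 : ℝ) ^ ((d : ℝ) + √(d : ℝ) / (112 * Real.log (d : ℝ))) ≤ (N : ℝ) := by
  have hl2 : 0 < Real.log 2 := Real.log_pos (by norm_num)
  have hd2 : (2 : ℝ) ≤ d := by exact_mod_cast hd
  have hld : Real.log 2 ≤ Real.log d := Real.log_le_log (by norm_num) hd2
  have hld0 : 0 < Real.log d := lt_of_lt_of_le hl2 hld
  have h3 := log3_le
  by_cases h0 : N + 1 ≤ 2 ^ (d + 1)
  · have hs := sqrt_bound (K := 0) hd (by simpa using h 0 (by simpa using h0))
    have hs' : √(d : ℝ) ≤ 56 * Real.log d := by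
      push_cast at hs
      nlinarith
    have hexp : √(d : ℝ) / (112 * Real.log (d : ℝ)) ≤ 1 / 2 := by
      rw [div_le_iff₀ (by positivity)]
      linarith
    have h2 : (2 : ℝ) ^ (1 / 2 : ℝ) ≤ 3 / 2 := by
      rw [← Real.sqrt_eq_rpow]
      rw [show (3 / 2 : ℝ) = √((3 / 2) ^ 2) from (Real.sqrt_sq (by norm_num)).symm]
      exact Real.sqrt_le_sqrt (by norm_num)
    have hN' : (2 : ℝ) ^ (d + 1) ≤ N + 1 := by exact_mod_cast hN
    have h1 : (2 : ℝ) ≤ 2 ^ d := by
      calc (2 : ℝ) = 2 ^ 1 := by norm_num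
        _ ≤ 2 ^ d := pow_le_pow_right₀ (by norm_num) (by omega)
    calc (2 : ℝ) ^ ((d : ℝ) + √(d : ℝ) / (112 * Real.log (d : ℝ)))
        ≤ (2 : ℝ) ^ ((d : ℝ) + 1 / 2) :=
          Real.rpow_le_rpow_of_exponent_le (by norm_num) (by linarith)
      _ = 2 ^ d * (2 : ℝ) ^ (1 / 2 : ℝ) := by
          rw [Real.rpow_add (by norm_num), Real.rpow_natCast]
      _ ≤ 2 ^ d * (3 / 2) := mul_le_mul_of_nonneg_left h2 (by positivity)
      _ ≤ N := by
          rw [pow_succ] at hN'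
          linarith
  · have hex : ∃ K : ℕ, N + 1 ≤ 2 ^ (d + 1 + K) := by
      refine ⟨N + 1, le_trans (Nat.lt_two_pow_self).le (Nat.pow_le_pow_right (by norm_num) ?_)⟩
      omega
    classical
    have hK := Nat.find_spec hex
    have hmin := fun m (hm : m < Nat.find hex) => Nat.find_min hex hm
    set K := Nat.find hex with hKdef
    have hK1 : 1 ≤ K := by
      by_contra hc
      have : K = 0 := by omega
      rw [this] at hK
      exact h0 (by simpa using hK)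
    have hlow : 2 ^ (d + K) ≤ N := by
      have := hmin (K - 1) (by omega)
      have he : d + 1 + (K - 1) = d + K := by omega
      rw [he] at this
      omega
    have hs := sqrt_bound (K := K) hd (h K hK)
    have hK1' : (1 : ℝ) ≤ K := by exact_mod_cast hK1
    have hs' : √(d : ℝ) ≤ 82 * K * Real.log d := by
      have e1 : 2 * Real.log 3 ≤ 4 * K * Real.log d := by nlinarith
      have e2 : 2 * ((K : ℝ) + 2) * (2 * Real.log d + 11 * Real.log 2) ≤
          2 * (3 * K) * (13 * Real.log d) := by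
        apply mul_le_mul <;> nlinarith
      linarith
    have hexp : √(d : ℝ) / (112 * Real.log (d : ℝ)) ≤ K := by
      rw [div_le_iff₀ (by positivity)]
      nlinarith
    calc (2 : ℝ) ^ ((d : ℝ) + √(d : ℝ) / (112 * Real.log (d : ℝ)))
        ≤ (2 : ℝ) ^ ((d : ℝ) + K) :=
          Real.rpow_le_rpow_of_exponent_le (by norm_num) (by linarith)
      _ = ((2 ^ (d + K) : ℕ) : ℝ) := by
          push_cast
          rw [← Nat.cast_add, Real.rpow_natCast]
      _ ≤ N := by exact_mod_cast hlow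

end Pool.Agent.SPL
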