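import Pool.Agent.SPL.FaceRank

/-!
# Extreme functionals of the polar
-/

set_option autoImplicit false

namespace Pool.Agent.SPL

open Pool.Agent.K3R

variable {V : Type} [AddCommGroup V] [Module ℝ V]

/-- functionals at most `1` on `S` whose set of tight points spans -/
def Ext (S : Set V) : Set (V →ₗ[ℝ] ℝ) :=
  {c | (∀ x ∈ S, c x ≤ 1) ∧ Submodule.span ℝ {x | x ∈ S ∧ c x = 1} = ⊤}

/-- a functional vanishing on a spanning set is zero -/
private theorem eq_zero_of_span {S : Set V} (hspan : Submodule.span ℝ S = ⊤) (e : V →ₗ[ℝ] ℝ)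
    (h : ∀ x ∈ S, e x = 0) : e = 0 := by
  refine LinearMap.ext_on hspan ?_
  intro x hx
  rw [h x hx, LinearMap.zero_apply]

/-- every functional at most `1` on `S` is dominated at `g` by a tight one -/
theorem exists_tight {S : Set V} (hS : S.Finite) (hsym : ∀ x ∈ S, -x ∈ S)
    (hspan : Submodule.span ℝ S = ⊤) (c₀ : V →ₗ[ℝ] ℝ) (h₀ : ∀ x ∈ S, c₀ x ≤ 1) (g : V) :
    ∃ c ∈ Ext S, c₀ g ≤ c g := by
  classical
  set N : (V →ₗ[ℝ] ℝ) → ℕ := fun c => {x | x ∈ S ∧ c x = 1}.ncard with hN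
  set K : Set (V →ₗ[ℝ] ℝ) := {c | (∀ x ∈ S, c x ≤ 1) ∧ c₀ g ≤ c g} with hK
  have hbd : BddAbove (N '' K) := by
    refine ⟨S.ncard, ?_⟩
    rintro _ ⟨c, -, rfl⟩
    exact Set.ncard_le_ncard (fun x hx => hx.1) hS
  have hne : (N '' K).Nonempty := ⟨N c₀, c₀, ⟨h₀, le_rfl⟩, rfl⟩
  obtain ⟨c, ⟨hc1, hc2⟩, hcN⟩ := Nat.sSup_mem hne hbd
  refine ⟨c, ⟨hc1, ?_⟩, hc2⟩
  by_contra hcon
  obtain ⟨e, he0, hker⟩ := Submodule.exists_le_ker_of_lt_top _ (lt_top_iff_ne_top.2 hcon)
  -- choose the sign of the functional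
  obtain ⟨e, he0, hker, heg⟩ : ∃ e : V →ₗ[ℝ] ℝ, e ≠ 0 ∧
      Submodule.span ℝ {x | x ∈ S ∧ c x = 1} ≤ LinearMap.ker e ∧ 0 ≤ e g := by
    rcases le_total 0 (e g) with h | h
    · exact ⟨e, he0, hker, h⟩
    · refine ⟨-e, neg_ne_zero.2 he0, ?_, ?_⟩
      · intro x hx
        have := hker hx
        rw [LinearMap.mem_ker] at this ⊢
        rw [LinearMap.neg_apply, this, neg_zero]
      · rw [LinearMap.neg_apply]
        linarith
  have hz : ∀ x ∈ S, c x = 1 → e x = 0 := fun x hx h1 =>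
    LinearMap.mem_ker.1 (hker (Submodule.subset_span ⟨hx, h1⟩))
  obtain ⟨x1, hx1, hx1p⟩ : ∃ x ∈ S, 0 < e x := by
    by_contra hno
    push Not at hno
    refine he0 (eq_zero_of_span hspan e fun x hx => ?_)
    have h1 := hno x hx
    have h2 := hno (-x) (hsym x hx)
    rw [map_neg] at h2
    linarith
  have hXfin : {x | x ∈ S ∧ 0 < e x}.Finite := hS.subset fun x hx => hx.1
  obtain ⟨x0, hx0, hmin⟩ := Set.exists_min_image {x | x ∈ S ∧ 0 < e x}
    (fun x => (1 - c x) / e x) hXfin ⟨x1, hx1, hx1p⟩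
  have hlt : ∀ x ∈ S, 0 < e x → c x < 1 := fun x hx hp =>
    lt_of_le_of_ne (hc1 x hx) fun h => by rw [hz x hx h] at hp; exact lt_irrefl _ hp
  set τ : ℝ := (1 - c x0) / e x0 with hτ
  have hτ0 : 0 < τ := div_pos (by linarith [hlt x0 hx0.1 hx0.2]) hx0.2
  have hmem : c + τ • e ∈ K := by
    refine ⟨fun x hx => ?_, ?_⟩
    · rw [LinearMap.add_apply, LinearMap.smul_apply, smul_eq_mul]
      rcases lt_or_ge 0 (e x) with h | h
      · have h1 : τ ≤ (1 - c x) / e x := hmin x ⟨hx, h⟩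
        rw [le_div_iff₀ h] at h1
        linarith
      · have h1 : τ * e x ≤ 0 := mul_nonpos_of_nonneg_of_nonpos hτ0.le h
        linarith [hc1 x hx]
    · rw [LinearMap.add_apply, LinearMap.smul_apply, smul_eq_mul]
      have h1 : 0 ≤ τ * e g := mul_nonneg hτ0.le heg
      linarith
  have hle : N (c + τ • e) ≤ sSup (N '' K) := le_csSup hbd ⟨_, hmem, rfl⟩
  rw [← hcN] at hle
  have hgt : N c < N (c + τ • e) := by
    refine Set.ncard_lt_ncard ?_ (hS.subset fun x hx => hx.1)
    rw [Set.ssubset_iff_of_subset]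
    · refine ⟨x0, ⟨hx0.1, ?_⟩, fun h => ?_⟩
      · rw [LinearMap.add_apply, LinearMap.smul_apply, smul_eq_mul, hτ,
          div_mul_cancel₀ _ hx0.2.ne']
        ring
      · exact (hlt x0 hx0.1 hx0.2).ne h.2
    · intro x hx
      refine ⟨hx.1, ?_⟩
      rw [LinearMap.add_apply, LinearMap.smul_apply, smul_eq_mul, hx.2, hz x hx.1 hx.2,
        mul_zero, add_zero]
  omega

/-- duality -/
theorem le_mul_of_ext {S : Set V} (hS : S.Finite) (hsym : ∀ x ∈ S, -x ∈ S)
    (hspan : Submodule.span ℝ S = ⊤) (g : V) (h : V →ₗ[ℝ] ℝ) (s t : ℝ) (hs : 0 ≤ s)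
    (ht : 0 ≤ t) (h1 : ∀ c ∈ Ext S, c g ≤ s) (h2 : ∀ x ∈ S, h x ≤ t) : h g ≤ s * t := by
  rcases ht.lt_or_eq with ht | ht
  · obtain ⟨c, hc, hcg⟩ := exists_tight hS hsym hspan (t⁻¹ • h) (fun x hx => by
      rw [LinearMap.smul_apply, smul_eq_mul, inv_mul_le_iff₀ ht, mul_one]
      exact h2 x hx) g
    have h3 := h1 c hc
    rw [LinearMap.smul_apply, smul_eq_mul, inv_mul_le_iff₀ ht] at hcg
    calc h g ≤ t * c g := hcg
      _ ≤ t * s := mul_le_mul_of_nonneg_left h3 ht.le
      _ = s * t := mul_comm _ _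
  · have h3 : h = 0 := by
      refine eq_zero_of_span hspan h fun x hx => ?_
      have h4 := h2 x hx
      have h5 := h2 (-x) (hsym x hx)
      rw [map_neg] at h5
      linarith
    rw [h3, LinearMap.zero_apply, ← ht, mul_zero]

/-- the extreme functionals are determined by faces of rank one less than the rank of `S` -/
theorem ext_ncard {S : Set V} (hS : S.Finite) (hne : S.Nonempty) (hsym : ∀ x ∈ S, -x ∈ S)
    (hspan : Submodule.span ℝ S = ⊤) (h1 : 1 ≤ Module.finrank ℝ V) :
    (Ext S).Finite ∧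
      (Ext S).ncard ≤ {A : Set V | IsF S A ∧ rkF A = Module.finrank ℝ V}.ncard := by
  have hfd : Module.Finite ℝ V := Module.finite_of_finrank_pos (by omega)
  set f : (V →ₗ[ℝ] ℝ) → Set V := fun c => {x | x ∈ S ∧ c x = 1} with hf
  have hmaps : ∀ c ∈ Ext S, f c ∈ {A : Set V | IsF S A ∧ rkF A = Module.finrank ℝ V} := by
    rintro c ⟨hc1, hc2⟩
    have hnon : (f c).Nonempty := by
      rw [Set.nonempty_iff_ne_empty]
      intro h
      rw [show {x | x ∈ S ∧ c x = 1} = (∅ : Set V) from h, Submodule.span_empty] at hc2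
      have h3 : Module.finrank ℝ (⊤ : Submodule ℝ V) = 0 := by rw [← hc2, finrank_bot]
      rw [finrank_top] at h3
      omega
    refine ⟨⟨fun x hx => hx.1, hnon, c, 1, fun x hx => hx.2, fun x hx hx' => ?_⟩, ?_⟩
    · exact lt_of_le_of_ne (hc1 x hx) fun h => hx' ⟨hx, h⟩
    · rw [rkF_of_nonempty hnon]
      obtain ⟨a, ha⟩ := hnon
      have hlow : Module.finrank ℝ V ≤ Module.finrank ℝ (vectorSpan ℝ (f c)) + 1 := by
        have h2 : (⊤ : Submodule ℝ V) ≤ vectorSpan ℝ (f c) ⊔ Submodule.span ℝ {a} := by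
          rw [← hc2, Submodule.span_le]
          intro x hx
          have h3 : x - a ∈ vectorSpan ℝ (f c) := by
            have := vsub_mem_vectorSpan ℝ (s := f c) hx ha
            simpa using this
          have h4 : x = (x - a) + a := by abel
          rw [h4]
          exact Submodule.add_mem_sup h3 (Submodule.mem_span_singleton_self a)
        calc Module.finrank ℝ V = Module.finrank ℝ (⊤ : Submodule ℝ V) := (finrank_top ℝ V).symm
          _ ≤ Module.finrank ℝ ↥(vectorSpan ℝ (f c) ⊔ Submodule.span ℝ {a}) :=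
            Submodule.finrank_mono h2
          _ ≤ Module.finrank ℝ (vectorSpan ℝ (f c)) +
              Module.finrank ℝ (Submodule.span ℝ ({a} : Set V)) :=
            Submodule.finrank_add_le_finrank_add_finrank _ _
          _ ≤ _ := by
            have := finrank_span_le_card (R := ℝ) ({a} : Set V)
            simp only [Set.toFinset_singleton, Finset.card_singleton] at this
            omega
      have hup : Module.finrank ℝ (vectorSpan ℝ (f c)) < Module.finrank ℝ V := by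
        have h2 : vectorSpan ℝ (f c) ≤ LinearMap.ker c := by
          unfold vectorSpan
          rw [Submodule.span_le]
          rintro _ ⟨x, hx, y, hy, rfl⟩
          show c (x - y) = 0
          rw [map_sub, hx.2, hy.2, sub_self]
        have h3 : LinearMap.ker c < ⊤ := by
          rw [lt_top_iff_ne_top]
          intro h
          have h4 : a ∈ LinearMap.ker c := by rw [h]; trivial
          rw [LinearMap.mem_ker, ha.2] at h4
          exact one_ne_zero h4
        exact (Submodule.finrank_mono h2).trans_lt (Submodule.finrank_lt h3.ne)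
      omega
  have hinj : Set.InjOn f (Ext S) := by
    rintro c ⟨hc1, hc2⟩ c' ⟨-, -⟩ hcc
    refine LinearMap.ext_on hc2 ?_
    intro x hx
    have h2 : x ∈ f c' := by rw [← hcc]; exact hx
    rw [hx.2, h2.2]
  have hfin : {A : Set V | IsF S A ∧ rkF A = Module.finrank ℝ V}.Finite :=
    (Fc_finite hS).subset fun A hA => hA.1
  refine ⟨?_, Set.ncard_le_ncard_of_injOn f hmaps hinj hfin⟩
  exact Set.Finite.of_finite_image (hfin.subset (Set.image_subset_iff.2 hmaps)) hinj

end Pool.Agent.SPL
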