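import Pool.Agent.SPL.FaceRank

/-!
# Vertices of a configuration
-/

set_option autoImplicit false

namespace Pool.Agent.SPL

open Pool.Agent.K3R

variable {V : Type} [AddCommGroup V] [Module ℝ V]

/-- the vertices -/
def Vt (S : Set V) : Set V := {x | IsF S {x}}

theorem Vt_sub (S : Set V) : Vt S ⊆ S := fun _ hx => hx.1 rfl

theorem Vt_finite {S : Set V} (hS : S.Finite) : (Vt S).Finite := hS.subset (Vt_sub S)

/-- every functional has its maximum at a vertex -/
theorem le_vertex {S : Set V} (hS : S.Finite) (ψ : V →ₗ[ℝ] ℝ) {x : V} (hx : x ∈ S) :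
    ∃ v ∈ Vt S, ψ x ≤ ψ v := by
  have hD : IsF S (mx S ψ) := mx_isF hS ⟨x, hx⟩ ψ
  obtain ⟨v, hv⟩ := exists_vertex (hS.subset hD.1) hD.2.1
  have hvD : v ∈ mx S ψ := hv.1 rfl
  exact ⟨v, IsF.trans hS hD hv, hvD.2 x hx⟩

theorem Vt_neg {S : Set V} (hsym : ∀ x ∈ S, -x ∈ S) : ∀ x ∈ Vt S, -x ∈ Vt S := by
  intro x hx
  have h := IsF.neg hsym hx
  rw [Set.image_singleton] at h
  exact h

theorem Vt_span {S : Set V} (hS : S.Finite) (hsym : ∀ x ∈ S, -x ∈ S)
    (hspan : Submodule.span ℝ S = ⊤) : Submodule.span ℝ (Vt S) = ⊤ := by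
  by_contra hne
  have hex : ∃ y, y ∉ Submodule.span ℝ (Vt S) := by
    by_contra h
    push Not at h
    exact hne (eq_top_iff.2 fun y _ => h y)
  obtain ⟨y, hy⟩ := hex
  obtain ⟨ψ, hψ, hψy⟩ := exists_vanish hy
  have h0 : ∀ x ∈ S, ψ x ≤ 0 := by
    intro x hx
    obtain ⟨v, hv, hle⟩ := le_vertex hS ψ hx
    rw [hψ v hv] at hle
    exact hle
  have h1 : ∀ x ∈ S, ψ x = 0 := by
    intro x hx
    have h2 := h0 (-x) (hsym x hx)
    rw [map_neg] at h2
    linarith [h0 x hx]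
  have h2 : Submodule.span ℝ S ≤ LinearMap.ker ψ :=
    Submodule.span_le.2 fun x hx => LinearMap.mem_ker.2 (h1 x hx)
  rw [hspan] at h2
  exact hψy (LinearMap.mem_ker.1 (h2 Submodule.mem_top))

theorem Vt_ncard {S : Set V} (hS : S.Finite) :
    (Vt S).ncard ≤ {A : Set V | IsF S A ∧ rkF A = 1}.ncard := by
  refine Set.ncard_le_ncard_of_injOn (fun x => ({x} : Set V)) ?_ ?_
    ((Fc_finite hS).subset fun A hA => hA.1)
  · intro x hx
    refine ⟨hx, ?_⟩
    rw [rkF_of_nonempty (Set.singleton_nonempty x), vectorSpan_singleton, finrank_bot]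
  · intro x _ y _ h
    exact Set.singleton_injective h

/-- the rank of a symmetric spanning configuration -/
theorem rkF_self {S : Set V} (hne : S.Nonempty) (hsym : ∀ x ∈ S, -x ∈ S)
    (hspan : Submodule.span ℝ S = ⊤) : rkF S = Module.finrank ℝ V + 1 := by
  have h1 : vectorSpan ℝ S = ⊤ := by
    rw [eq_top_iff, ← hspan, Submodule.span_le]
    intro x hx
    have h2 : x -ᵥ (-x) ∈ vectorSpan ℝ S := vsub_mem_vectorSpan ℝ hx (hsym x hx)
    have h3 : x = (1 / 2 : ℝ) • (x -ᵥ (-x)) := by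
      rw [vsub_eq_sub, sub_neg_eq_add, ← two_smul ℝ x, smul_smul]
      norm_num
    rw [h3]
    exact Submodule.smul_mem _ _ h2
  rw [rkF_of_nonempty hne, h1, finrank_top]

end Pool.Agent.SPL
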