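import Pool.Agent.SPL.LatAtoms
import Pool.Agent.SPL.FaceCompl
import Pool.Agent.SPL.FLMCore
import Pool.Agent.SPL.Polar
import Pool.Agent.SPL.Verts
import Pool.Agent.SPL.Num

/-!
# The theorem for configurations
-/

set_option autoImplicit false

namespace Pool.Agent.SPL

open Pool.Agent.K3R Matrix

/-- the vector of a functional -/
noncomputable def vec {d : ℕ} (c : (Fin d → ℝ) →ₗ[ℝ] ℝ) : Fin d → ℝ := fun i => c (Pi.single i 1)

theorem vec_dot {d : ℕ} (c : (Fin d → ℝ) →ₗ[ℝ] ℝ) (x : Fin d → ℝ) : vec c ⬝ᵥ x = c x := by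
  conv_rhs => rw [LinearMap.pi_apply_eq_sum_univ c x]
  unfold dotProduct vec
  refine Finset.sum_congr rfl fun i _ => ?_
  rw [smul_eq_mul, mul_comm]
  congr 2
  funext j
  rw [Pi.single_apply]
  by_cases h : i = j
  · rw [if_pos h, if_pos h.symm]
  · rw [if_neg h, if_neg (Ne.symm h)]

theorem vec_injective {d : ℕ} : Function.Injective (vec (d := d)) := by
  intro a b h
  ext1 x
  ext
  have h1 := vec_dot a (Pi.single x 1)
  have h2 := vec_dot b (Pi.single x 1)
  rw [h, h2] at h1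
  exact h1.symm

/-- the functional of a vector -/
noncomputable def fnl {d : ℕ} (h : Fin d → ℝ) : (Fin d → ℝ) →ₗ[ℝ] ℝ where
  toFun x := x ⬝ᵥ h
  map_add' x y := add_dotProduct x y h
  map_smul' a x := smul_dotProduct a x h

theorem fnl_apply {d : ℕ} (h x : Fin d → ℝ) : fnl h x = x ⬝ᵥ h := rfl

/-- Figiel, Lindenstrauss and Milman for configurations -/
theorem flm_cfg {d : ℕ} (hd : 0 < d) (S : Set (Fin d → ℝ)) (hS : S.Finite)
    (hsym : ∀ x ∈ S, -x ∈ S) (hspan : Submodule.span ℝ S = ⊤) :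
    (d : ℝ) ≤ 4 * Real.log (3 * ((Ext S).ncard : ℝ)) * Real.log (3 * ((Vt S).ncard : ℝ)) := by
  classical
  have hne : S.Nonempty := by
    rw [Set.nonempty_iff_ne_empty]
    rintro rfl
    rw [Submodule.span_empty] at hspan
    have h1 : (Pi.single (⟨0, hd⟩ : Fin d) (1 : ℝ) : Fin d → ℝ) ∈ (⊥ : Submodule ℝ (Fin d → ℝ)) := by
      rw [hspan]
      exact Submodule.mem_top
    rw [Submodule.mem_bot] at h1
    have h2 := congrFun h1 ⟨0, hd⟩
    simp at h2
  have hfr : Module.finrank ℝ (Fin d → ℝ) = d := by simp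
  obtain ⟨hEfin, -⟩ := ext_ncard hS hne hsym hspan (by rw [hfr]; exact hd)
  have hVfin : (Vt S).Finite := Vt_finite hS
  have hCfin : (vec '' Ext S).Finite := hEfin.image _
  have hmain := flm_core hd hVfin.toFinset hCfin.toFinset (by
    intro x hx
    rw [Set.Finite.mem_toFinset] at hx ⊢
    exact Vt_neg hsym x hx) (by
    rw [Set.Finite.coe_toFinset]
    exact Vt_span hS hsym hspan) (by
    intro c hc x hx
    rw [Set.Finite.mem_toFinset] at hc hx
    obtain ⟨c', hc', rfl⟩ := hc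
    rw [vec_dot]
    exact hc'.1 x (Vt_sub S hx)) (by
    intro g h s t hs ht h1 h2
    have h3 := le_mul_of_ext hS hsym hspan g (fnl h) s t hs ht (by
      intro c hc
      rw [← vec_dot]
      exact h1 _ ((Set.Finite.mem_toFinset _).2 ⟨c, hc, rfl⟩)) (by
      intro x hx
      obtain ⟨v, hv, hle⟩ := le_vertex hS (fnl h) hx
      exact hle.trans (h2 v ((Set.Finite.mem_toFinset _).2 hv)))
    exact h3)
  have h1 : (hCfin.toFinset.card : ℕ) = (Ext S).ncard := by
    rw [← Set.ncard_eq_toFinset_card _ hCfin, Set.ncard_image_of_injective _ vec_injective]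
  have h2 : (hVfin.toFinset.card : ℕ) = (Vt S).ncard := by
    rw [← Set.ncard_eq_toFinset_card _ hVfin]
  rw [h1, h2] at hmain
  exact hmain

/-- few faces imply few vertices and few facets -/
theorem few {V : Type} [AddCommGroup V] [Module ℝ V] {S : Set V} (hS : S.Finite) {n K : ℕ}
    (hn : rkF S = n) (hn1 : 1 ≤ n) (hK : NF S + 1 ≤ 2 ^ (n + K)) :
    {A : Set V | IsF S A ∧ rkF A = 1}.ncard ≤ 2 ^ ((K + 2) * (2 * Nat.clog 2 n + 7)) ∧
    {A : Set V | IsF S A ∧ rkF A + 1 = n}.ncard ≤ 2 ^ ((K + 2) * (2 * Nat.clog 2 n + 7)) := by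
  haveI : Fact S.Finite := ⟨hS⟩
  have hr := rk_FL S n hn
  have hRC := rc_FL S
  have hK' : Nat.card (FL S) ≤ 2 ^ (n + K) := by
    rw [FL.card_FL]
    exact hK
  have h1 := atoms_le hr hRC hK'
  have h2 := coatoms_le hr hRC hK' hn1
  have hinj : Function.Injective (fun v : FL S => v.1) := fun a b h => FL.ext h
  constructor
  · refine le_trans ?_ h1
    rw [← Set.ncard_image_of_injective _ hinj]
    refine Set.ncard_le_ncard ?_ ((Set.toFinite _).image _)
    rintro A ⟨hA, hA1⟩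
    exact ⟨⟨A, Or.inr hA⟩, hA1, rfl⟩
  · refine le_trans ?_ h2
    rw [← Set.ncard_image_of_injective _ hinj]
    refine Set.ncard_le_ncard ?_ ((Set.toFinite _).image _)
    rintro A ⟨hA, hA1⟩
    exact ⟨⟨A, Or.inr hA⟩, hA1, rfl⟩

theorem simplex_bound {V : Type} [AddCommGroup V] [Module ℝ V] {S : Set V} (hS : S.Finite)
    {n : ℕ} (hn : rkF S = n) : 2 ^ n ≤ NF S + 1 := by
  haveI : Fact S.Finite := ⟨hS⟩
  have hr := rk_FL S n hn
  have hRC := rc_FL S
  have h1 := I_pow_up hr hRC (le_refl (⊥ : FL S)) (bot_le : (⊥ : FL S) ≤ ⊤)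
  rw [hr.top, hr.bot, Nat.sub_zero] at h1
  have h2 : I (⊥ : FL S) ⊥ = 1 := by
    unfold I
    rw [Set.Icc_self, Set.ncard_singleton]
  have h3 : I (⊥ : FL S) ⊤ = NF S + 1 := by
    unfold I
    rw [Set.Icc_bot_top, Set.ncard_univ, FL.card_FL]
  rw [h2, h3, mul_one] at h1
  exact h1

theorem log_three_mul_le {m E : ℕ} (h : m ≤ 2 ^ E) :
    0 ≤ Real.log (3 * (m : ℝ)) ∧
      Real.log (3 * (m : ℝ)) ≤ Real.log 3 + (E : ℝ) * Real.log 2 := by
  have h3 : 0 ≤ Real.log 3 := Real.log_nonneg (by norm_num)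
  have h2 : 0 ≤ Real.log 2 := Real.log_nonneg (by norm_num)
  rcases Nat.eq_zero_or_pos m with rfl | hm
  · simp only [Nat.cast_zero, mul_zero, Real.log_zero, le_refl, true_and]
    have := mul_nonneg (Nat.cast_nonneg E : (0 : ℝ) ≤ (E : ℝ)) h2
    linarith
  · have hm' : (1 : ℝ) ≤ (m : ℝ) := by exact_mod_cast hm
    refine ⟨Real.log_nonneg (by linarith), ?_⟩
    have h4 : (m : ℝ) ≤ 2 ^ E := by exact_mod_cast h
    have h5 : Real.log (3 * 2 ^ E) = Real.log 3 + (E : ℝ) * Real.log 2 := by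
      rw [Real.log_mul (by norm_num) (by positivity), Real.log_pow]
    rw [← h5]
    exact Real.log_le_log (by positivity) (by linarith)

theorem cfg_main {d : ℕ} (hd : 2 ≤ d) (S : Set (Fin d → ℝ)) (hS : S.Finite)
    (hsym : ∀ x ∈ S, -x ∈ S) (hspan : Submodule.span ℝ S = ⊤) :
    (2 : ℝ) ^ ((d : ℝ) + √(d : ℝ) / (112 * Real.log (d : ℝ))) ≤ (NF S : ℝ) := by
  have hd0 : 0 < d := by omega
  have hne : S.Nonempty := by
    rw [Set.nonempty_iff_ne_empty]
    rintro rfl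
    rw [Submodule.span_empty] at hspan
    have h1 : (Pi.single (⟨0, hd0⟩ : Fin d) (1 : ℝ) : Fin d → ℝ) ∈
        (⊥ : Submodule ℝ (Fin d → ℝ)) := by
      rw [hspan]
      exact Submodule.mem_top
    rw [Submodule.mem_bot] at h1
    have h2 := congrFun h1 ⟨0, hd0⟩
    simp at h2
  have hfr : Module.finrank ℝ (Fin d → ℝ) = d := by simp
  have hrk : rkF S = d + 1 := by
    rw [rkF_self hne hsym hspan, hfr]
  obtain ⟨-, hE⟩ := ext_ncard hS hne hsym hspan (by rw [hfr]; exact hd0)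
  have hV := Vt_ncard hS
  have hflm := flm_cfg hd0 S hS hsym hspan
  refine num hd (simplex_bound hS hrk) ?_
  intro K hK
  obtain ⟨h1, h2⟩ := few hS hrk (by omega) hK
  have h3 : {A : Set (Fin d → ℝ) | IsF S A ∧ rkF A + 1 = d + 1} =
      {A : Set (Fin d → ℝ) | IsF S A ∧ rkF A = Module.finrank ℝ (Fin d → ℝ)} := by
    ext A
    rw [hfr]
    constructor
    · rintro ⟨h, h'⟩
      exact ⟨h, by omega⟩
    · rintro ⟨h, h'⟩
      exact ⟨h, by omega⟩
  rw [h3] at h2
  obtain ⟨h4, h5⟩ := log_three_mul_le (hE.trans h2)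
  obtain ⟨h6, h7⟩ := log_three_mul_le (hV.trans h1)
  refine hflm.trans ?_
  rw [sq, mul_assoc]
  refine mul_le_mul_of_nonneg_left ?_ (by norm_num)
  exact mul_le_mul h5 h7 h6 (h4.trans h5)

end Pool.Agent.SPL
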