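import Mathlib

/-!
# Face numbers of centrally symmetric polytopes: the lattice part, definitions
-/

set_option autoImplicit false

namespace Pool.Agent.SPL

/-- relative complements exist in all intervals -/
def RC (L : Type) [Lattice L] : Prop :=
  ∀ x y z : L, x ≤ y → y ≤ z → ∃ w, w ⊓ y = x ∧ w ⊔ y = z

/-- the number of elements of the interval between `x` and `y` -/
noncomputable def I {L : Type} [Lattice L] (x y : L) : ℕ := (Set.Icc x y).ncard

/-- the number of pairs `a ≤ b` in the interval between `x` and `z` -/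
noncomputable def T {L : Type} [Lattice L] (x z : L) : ℕ :=
  {p : L × L | x ≤ p.1 ∧ p.1 ≤ p.2 ∧ p.2 ≤ z}.ncard

/-- `r` is a rank function with top rank `n` (no gaps are skipped) -/
structure Rk {L : Type} [Lattice L] [BoundedOrder L] (n : ℕ) (r : L → ℕ) : Prop where
  mono : StrictMono r
  bot : r ⊥ = 0
  top : r ⊤ = n
  mid : ∀ x y : L, x ≤ y → r x + 2 ≤ r y → ∃ z, x < z ∧ z < y

/-- the number of elements of rank one below `y` -/
noncomputable def na {L : Type} [Lattice L] (r : L → ℕ) (y : L) : ℕ := {v | r v = 1 ∧ v ≤ y}.ncard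

theorem RC.dual {L : Type} [Lattice L] (h : RC L) : RC Lᵒᵈ := by
  intro x y z hxy hyz
  obtain ⟨w, hw1, hw2⟩ := h (OrderDual.ofDual z) (OrderDual.ofDual y) (OrderDual.ofDual x) hyz hxy
  exact ⟨OrderDual.toDual w, hw2, hw1⟩

theorem Rk.le {L : Type} [Lattice L] [BoundedOrder L] {n : ℕ} {r : L → ℕ} (h : Rk n r) (x : L) :
    r x ≤ n := by
  rw [← h.top]
  exact h.mono.monotone le_top

theorem Rk.dual {L : Type} [Lattice L] [BoundedOrder L] {n : ℕ} {r : L → ℕ} (h : Rk n r) :
    Rk n (fun x : Lᵒᵈ => n - r (OrderDual.ofDual x)) where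
  mono := by
    intro x y hxy
    have h1 : r (OrderDual.ofDual y) < r (OrderDual.ofDual x) := h.mono hxy
    have h2 := h.le (OrderDual.ofDual x)
    show n - r (OrderDual.ofDual x) < n - r (OrderDual.ofDual y)
    omega
  bot := by
    show n - r (⊤ : L) = 0
    rw [h.top, Nat.sub_self]
  top := by
    show n - r (⊥ : L) = n
    rw [h.bot, Nat.sub_zero]
  mid := by
    intro x y hxy hr
    have h1 := h.le (OrderDual.ofDual x)
    have h2 := h.le (OrderDual.ofDual y)
    obtain ⟨z, hz1, hz2⟩ := h.mid (OrderDual.ofDual y) (OrderDual.ofDual x) hxy (by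
      change n - r (OrderDual.ofDual x) + 2 ≤ n - r (OrderDual.ofDual y) at hr
      omega)
    exact ⟨OrderDual.toDual z, hz2, hz1⟩

theorem I_dual {L : Type} [Lattice L] (x y : L) :
    I (OrderDual.toDual y) (OrderDual.toDual x) = I x y := by
  unfold I
  refine congrArg Set.ncard ?_
  ext z
  exact and_comm

end Pool.Agent.SPL
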