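import Pool.Agent.SPL.Defs
import Pool.Agent.K3R.Cfg

/-!
# The lattice of faces of a finite point configuration (with the empty face)
-/

set_option autoImplicit false

namespace Pool.Agent.SPL

open Pool.Agent.K3R

variable {V : Type} [AddCommGroup V] [Module ℝ V]

/-- the faces of `S`, together with the empty set -/
def FL (S : Set V) : Type := {A : Set V // A = ∅ ∨ IsF S A}

namespace FL

variable {S : Set V}

instance : PartialOrder (FL S) := inferInstanceAs (PartialOrder {A : Set V // A = ∅ ∨ IsF S A})

theorem le_def {A B : FL S} : A ≤ B ↔ A.1 ⊆ B.1 := Iff.rfl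

theorem lt_def {A B : FL S} : A < B ↔ A.1 ⊂ B.1 := Iff.rfl

theorem ext {A B : FL S} (h : A.1 = B.1) : A = B := Subtype.ext h

theorem sub (A : FL S) : A.1 ⊆ S := by
  rcases A.2 with h | h
  · rw [h]
    exact Set.empty_subset _
  · exact h.1

theorem isF {A : FL S} (h : A.1.Nonempty) : IsF S A.1 := by
  rcases A.2 with h1 | h1
  · rw [h1] at h
    exact absurd h Set.not_nonempty_empty
  · exact h1

theorem inter_mem (A B : FL S) : A.1 ∩ B.1 = ∅ ∨ IsF S (A.1 ∩ B.1) := by
  rcases Set.eq_empty_or_nonempty (A.1 ∩ B.1) with h | h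
  · exact Or.inl h
  · exact Or.inr ((isF (h.mono Set.inter_subset_left)).inter (isF (h.mono Set.inter_subset_right)) h)

instance : SemilatticeInf (FL S) where
  inf A B := ⟨A.1 ∩ B.1, inter_mem A B⟩
  inf_le_left _ _ := Set.inter_subset_left
  inf_le_right _ _ := Set.inter_subset_right
  le_inf _ _ _ h1 h2 := Set.subset_inter h1 h2

theorem inf_val (A B : FL S) : (A ⊓ B).1 = A.1 ∩ B.1 := rfl

instance : BoundedOrder (FL S) where
  top := ⟨S, by
    rcases Set.eq_empty_or_nonempty S with h | h
    · exact Or.inl h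
    · exact Or.inr (IsF.self h)⟩
  le_top A := A.sub
  bot := ⟨∅, Or.inl rfl⟩
  bot_le A := Set.empty_subset _

theorem top_val : (⊤ : FL S).1 = S := rfl

theorem bot_val : (⊥ : FL S).1 = ∅ := rfl

instance [hS : Fact S.Finite] : Finite (FL S) := by
  have h : {A : Set V | A = ∅ ∨ IsF S A}.Finite :=
    (hS.out.finite_subsets).subset (by
      rintro A (h | h)
      · rw [h]
        exact Set.empty_subset S
      · exact h.1)
  exact h.to_subtype

noncomputable instance [hS : Fact S.Finite] : Lattice (FL S) where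
  toSemilatticeInf := inferInstance
  sup A B := by
    classical
    exact ((Set.toFinite {C : FL S | A ≤ C ∧ B ≤ C}).toFinset).inf id
  le_sup_left A B := by
    classical
    show A ≤ ((Set.toFinite {C : FL S | A ≤ C ∧ B ≤ C}).toFinset).inf id
    refine Finset.le_inf fun C hC => ?_
    rw [Set.Finite.mem_toFinset] at hC
    exact hC.1
  le_sup_right A B := by
    classical
    show B ≤ ((Set.toFinite {C : FL S | A ≤ C ∧ B ≤ C}).toFinset).inf id
    refine Finset.le_inf fun C hC => ?_
    rw [Set.Finite.mem_toFinset] at hC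
    exact hC.2
  sup_le A B C h1 h2 := by
    classical
    show ((Set.toFinite {C : FL S | A ≤ C ∧ B ≤ C}).toFinset).inf id ≤ C
    exact Finset.inf_le (f := id) ((Set.Finite.mem_toFinset _).2 ⟨h1, h2⟩)

theorem inf_val' [Fact S.Finite] (A B : FL S) : (A ⊓ B).1 = A.1 ∩ B.1 := rfl

/-- the number of faces with the empty one -/
theorem card_FL [hS : Fact S.Finite] : Nat.card (FL S) = NF S + 1 := by
  have h1 : Nat.card (FL S) = (insert (∅ : Set V) (Fc S)).ncard := by
    have h : {A : Set V | A = ∅ ∨ IsF S A} = insert (∅ : Set V) (Fc S) := rfl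
    rw [← h]
    rfl
  rw [h1, Set.ncard_insert_of_notMem _ (Fc_finite hS.out)]
  · rfl
  · intro h
    exact Set.not_nonempty_empty h.2.1

end FL

end Pool.Agent.SPL
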