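import Pool.Agent.SPL.FaceLat
import Pool.Agent.K3R.Base

/-!
# The rank function of the face lattice
-/

set_option autoImplicit false

namespace Pool.Agent.SPL

open Pool.Agent.K3R

variable {V : Type} [AddCommGroup V] [Module ℝ V]

/-- the rank of a face: dimension plus one -/
noncomputable def rkF (A : Set V) : ℕ := by
  classical
  exact if A = ∅ then 0 else Module.finrank ℝ (vectorSpan ℝ A) + 1

theorem rkF_empty : rkF (∅ : Set V) = 0 := by
  unfold rkF
  rw [if_pos rfl]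

theorem rkF_of_nonempty {A : Set V} (h : A.Nonempty) :
    rkF A = Module.finrank ℝ (vectorSpan ℝ A) + 1 := by
  unfold rkF
  rw [if_neg h.ne_empty]

private theorem sub_mem_vectorSpan {A : Set V} {x y : V} (hx : x ∈ A) (hy : y ∈ A) :
    x - y ∈ vectorSpan ℝ A := vsub_mem_vectorSpan ℝ hx hy

private theorem vectorSpan_le {A : Set V} {W : Submodule ℝ V} (h : ∀ x ∈ A, ∀ y ∈ A, x - y ∈ W) :
    vectorSpan ℝ A ≤ W := by
  rw [vectorSpan_def, Submodule.span_le]
  rintro _ ⟨x, hx, y, hy, rfl⟩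
  exact h x hx y hy

/-- strict monotonicity -/
theorem rkF_lt {S A B : Set V} (hS : S.Finite) (hA : A = ∅ ∨ IsF S A) (hB : IsF S B)
    (hAB : A ⊂ B) : rkF A < rkF B := by
  rw [rkF_of_nonempty hB.2.1]
  rcases hA with hA | hA
  · rw [hA, rkF_empty]
    omega
  · rw [rkF_of_nonempty hA.2.1]
    have hBfin : B.Finite := hS.subset hB.1
    have : FiniteDimensional ℝ (vectorSpan ℝ B) := finiteDimensional_vectorSpan_of_finite ℝ hBfin
    obtain ⟨-, ⟨a, ha⟩, φ, c, h1, h2⟩ := hA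
    obtain ⟨x, hxB, hxA⟩ := Set.exists_of_ssubset hAB
    have h3 : vectorSpan ℝ A < vectorSpan ℝ B := by
      refine lt_of_le_of_ne (vectorSpan_mono ℝ hAB.1) fun h => ?_
      have h4 : vectorSpan ℝ A ≤ LinearMap.ker φ := vectorSpan_le fun y hy z hz => by
        rw [LinearMap.mem_ker, map_sub, h1 y hy, h1 z hz, sub_self]
      have h5 : x - a ∈ vectorSpan ℝ B := sub_mem_vectorSpan hxB (hAB.1 ha)
      rw [← h] at h5
      have h6 := LinearMap.mem_ker.1 (h4 h5)
      rw [map_sub, h1 a ha] at h6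
      have h7 := h2 x (hB.1 hxB) hxA
      linarith
    have := Submodule.finrank_lt_finrank_of_lt h3
    omega

/-- no gaps -/
theorem exists_mid {S A B : Set V} (hS : S.Finite) (hA : A = ∅ ∨ IsF S A) (hB : IsF S B)
    (hAB : A ⊆ B) (h : rkF A + 2 ≤ rkF B) : ∃ C, IsF S C ∧ A ⊂ C ∧ C ⊂ B := by
  have hBfin : B.Finite := hS.subset hB.1
  have hBd : FiniteDimensional ℝ (vectorSpan ℝ B) := finiteDimensional_vectorSpan_of_finite ℝ hBfin
  rcases hA with hA | hA
  · subst hA
    obtain ⟨v, hv⟩ := exists_vertex hBfin hB.2.1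
    refine ⟨{v}, IsF.trans hS hB hv, ?_, ?_⟩
    · exact (Set.singleton_nonempty v).empty_ssubset
    · refine hv.1.ssubset_of_ne fun h1 => ?_
      rw [rkF_of_nonempty hB.2.1, ← h1, vectorSpan_singleton, finrank_bot] at h
      omega
  · have hne : A ≠ B := by
      rintro rfl
      omega
    rw [rkF_of_nonempty hA.2.1, rkF_of_nonempty hB.2.1] at h
    obtain ⟨-, ⟨g, hg⟩, φ, c, h1, h2⟩ := hA
    obtain ⟨x1, hx1B, hx1A⟩ := Set.exists_of_ssubset (hAB.ssubset_of_ne hne)
    have hAd : FiniteDimensional ℝ (vectorSpan ℝ A) :=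
      finiteDimensional_vectorSpan_of_finite ℝ (hBfin.subset hAB)
    have hW1 : Module.finrank ℝ
        (vectorSpan ℝ A ⊔ Submodule.span ℝ {x1 - g} : Submodule ℝ V) ≤
        Module.finrank ℝ (vectorSpan ℝ A) + 1 := by
      have h3 := Submodule.finrank_add_le_finrank_add_finrank (vectorSpan ℝ A)
        (Submodule.span ℝ {x1 - g})
      have h4 : Module.finrank ℝ (Submodule.span ℝ {x1 - g}) ≤ 1 := by
        have := finrank_span_le_card (R := ℝ) ({x1 - g} : Set V)
        simpa using this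
      omega
    have hex : ∃ x2 ∈ B, x2 - g ∉ (vectorSpan ℝ A ⊔ Submodule.span ℝ {x1 - g} : Submodule ℝ V) := by
      by_contra hcon
      push Not at hcon
      have h3 : vectorSpan ℝ B ≤ vectorSpan ℝ A ⊔ Submodule.span ℝ {x1 - g} :=
        vectorSpan_le fun x hx y hy => by
          have h4 := Submodule.sub_mem _ (hcon x hx) (hcon y hy)
          rwa [sub_sub_sub_cancel_right] at h4
      have h5 := Submodule.finrank_mono h3
      omega
    obtain ⟨x2, hx2B, hx2W⟩ := hex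
    obtain ⟨ψ, hψ1, hψ2⟩ : ∃ ψ : V →ₗ[ℝ] ℝ,
        (∀ y ∈ (vectorSpan ℝ A ⊔ Submodule.span ℝ {x1 - g} : Submodule ℝ V), ψ y = 0) ∧
        0 < ψ (x2 - g) := by
      obtain ⟨f, hf, hf2⟩ := Submodule.exists_le_ker_of_notMem hx2W
      rcases lt_or_gt_of_ne hf with h3 | h3
      · refine ⟨-f, fun y hy => ?_, ?_⟩
        · rw [LinearMap.neg_apply, LinearMap.mem_ker.1 (hf2 hy), neg_zero]
        · rw [LinearMap.neg_apply]
          linarith
      · exact ⟨f, fun y hy => LinearMap.mem_ker.1 (hf2 hy), h3⟩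
    have hψA : ∀ x ∈ A, ψ x = ψ g := by
      intro x hx
      have h3 := hψ1 (x - g) ((le_sup_left : vectorSpan ℝ A ≤ _) (sub_mem_vectorSpan hx hg))
      rw [map_sub] at h3
      linarith
    have hψx1 : ψ x1 = ψ g := by
      have h3 := hψ1 (x1 - g) ((le_sup_right : Submodule.span ℝ {x1 - g} ≤ _)
        (Submodule.mem_span_singleton_self _))
      rw [map_sub] at h3
      linarith
    have hpos : ∀ x ∈ B \ A, 0 < c - φ x := fun x hx => by
      have := h2 x (hB.1 hx.1) hx.2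
      linarith
    obtain ⟨v, hv, hvmax⟩ := Set.exists_max_image (B \ A)
      (fun w => (ψ w - ψ g) / (c - φ w)) (hBfin.subset Set.sdiff_subset) ⟨x1, hx1B, hx1A⟩
    set m : ℝ := (ψ v - ψ g) / (c - φ v) with hm
    have hx2A : x2 ∉ A := by
      intro h3
      rw [map_sub, hψA x2 h3, sub_self] at hψ2
      exact lt_irrefl _ hψ2
    have hmpos : 0 < m := by
      have h3 := hvmax x2 ⟨hx2B, hx2A⟩
      rw [map_sub] at hψ2
      exact (div_pos hψ2 (hpos x2 ⟨hx2B, hx2A⟩)).trans_le h3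
    have hle : ∀ x ∈ B, ψ x + m * φ x ≤ ψ g + m * c := by
      intro x hx
      by_cases hxA : x ∈ A
      · rw [hψA x hxA, h1 x hxA]
      · have h3 := hvmax x ⟨hx, hxA⟩
        have h4 := hpos x ⟨hx, hxA⟩
        have h5 := mul_le_mul_of_nonneg_right h3 h4.le
        rw [div_mul_cancel₀ _ h4.ne'] at h5
        linarith
    have hveq : ψ v + m * φ v = ψ g + m * c := by
      have h4 := hpos v hv
      have h5 : m * (c - φ v) = ψ v - ψ g := by
        rw [hm, div_mul_cancel₀ _ h4.ne']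
      linarith
    have hCF : IsF B {x | x ∈ B ∧ ψ x + m * φ x = ψ g + m * c} := by
      refine ⟨fun x hx => hx.1, ⟨g, hAB hg, ?_⟩, ψ + m • φ, ψ g + m * c, ?_, ?_⟩
      · rw [h1 g hg]
      · intro x hx
        exact hx.2
      · intro x hx hx'
        exact lt_of_le_of_ne (hle x hx) fun h => hx' ⟨hx, h⟩
    refine ⟨_, IsF.trans hS hB hCF, ?_, ?_⟩
    · refine Set.ssubset_iff_subset_ne.2 ⟨fun x hx => ⟨hAB hx, ?_⟩, fun h3 => ?_⟩
      · rw [hψA x hx, h1 x hx]
      · apply hv.2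
        rw [h3]
        exact ⟨hv.1, hveq⟩
    · refine Set.ssubset_iff_subset_ne.2 ⟨fun x hx => hx.1, fun h3 => ?_⟩
      have h4 : x1 ∈ {x | x ∈ B ∧ ψ x + m * φ x = ψ g + m * c} := by
        rw [h3]
        exact hx1B
      have h5 := h4.2
      rw [hψx1] at h5
      have h6 := mul_pos hmpos (hpos x1 ⟨hx1B, hx1A⟩)
      linarith

theorem rk_FL (S : Set V) [hS : Fact S.Finite] (n : ℕ) (hn : rkF S = n) :
    Rk n (fun A : FL S => rkF A.1) where
  mono := by
    intro A B hAB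
    have h1 : A.1 ⊂ B.1 := FL.lt_def.1 hAB
    obtain ⟨x, hx, -⟩ := Set.exists_of_ssubset h1
    exact rkF_lt hS.out A.2 (FL.isF ⟨x, hx⟩) h1
  bot := rkF_empty
  top := hn
  mid := by
    intro A B hAB h
    have hB : B.1.Nonempty := by
      rw [Set.nonempty_iff_ne_empty]
      intro h0
      have h1 : rkF A.1 + 2 ≤ rkF B.1 := h
      rw [h0, rkF_empty] at h1
      omega
    obtain ⟨C, hC, h1, h2⟩ := exists_mid hS.out A.2 (FL.isF hB) (FL.le_def.1 hAB) h
    exact ⟨⟨C, Or.inr hC⟩, FL.lt_def.2 h1, FL.lt_def.2 h2⟩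

end Pool.Agent.SPL
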