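import Pool.Agent.SPL.Cfg
import Pool.Agent.K3R.Bridge

/-!
# The theorem for polytopes
-/

set_option autoImplicit false

namespace Pool.Agent.SPL

open Pool.Agent.K3R

/-- the symmetric hull of the generating points -/
def symS {d : ℕ} (S : Set (E d)) : Set (E d) := S ∪ (fun x => -x) '' S

theorem symS_finite {d : ℕ} {S : Set (E d)} (hS : S.Finite) : (symS S).Finite :=
  hS.union (hS.image _)

theorem symS_neg {d : ℕ} (S : Set (E d)) : ∀ x ∈ symS S, -x ∈ symS S := by
  rintro x (hx | ⟨y, hy, rfl⟩)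
  · exact Or.inr ⟨x, hx, rfl⟩
  · left
    simpa using hy

theorem hull_symS {d : ℕ} {S : Set (E d)}
    (hsym : ∀ x ∈ convexHull ℝ S, -x ∈ convexHull ℝ S) :
    convexHull ℝ (symS S) = convexHull ℝ S := by
  refine subset_antisymm (convexHull_min ?_ (convex_convexHull ℝ S))
    (convexHull_mono Set.subset_union_left)
  rintro x (hx | ⟨y, hy, rfl⟩)
  · exact subset_convexHull ℝ S hx
  · exact hsym y (subset_convexHull ℝ S hy)

theorem span_top {d : ℕ} {S : Set (E d)} (hint : (interior (convexHull ℝ S)).Nonempty) :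
    Submodule.span ℝ S = ⊤ := by
  have h1 : affineSpan ℝ S = ⊤ := interior_convexHull_nonempty_iff_affineSpan_eq_top.1 hint
  rw [eq_top_iff]
  intro x _
  have h2 : x ∈ affineSpan ℝ S := by
    rw [h1]
    exact AffineSubspace.mem_top ℝ _ x
  exact affineSpan_subset_span h2

theorem poly_faces {d : ℕ} (hd : 2 ≤ d) {S : Set (E d)} (hS : S.Finite)
    (hint : (interior (convexHull ℝ S)).Nonempty)
    (hsym : ∀ x ∈ convexHull ℝ S, -x ∈ convexHull ℝ S) :
    (XF (convexHull ℝ S)).Finite ∧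
      (2 : ℝ) ^ ((d : ℝ) + √(d : ℝ) / (112 * Real.log (d : ℝ))) ≤
        ((XF (convexHull ℝ S)).ncard : ℝ) := by
  have hfin : (XF (convexHull ℝ S)).Finite := by
    rw [← Set.encard_lt_top_iff]
    exact lt_of_le_of_lt (XF_le_NF hS) (ENat.coe_lt_top _)
  refine ⟨hfin, ?_⟩
  have hS' := symS_finite hS
  have hspan : Submodule.span ℝ (symS S) = ⊤ := by
    apply span_top
    rw [hull_symS hsym]
    exact hint
  set g : E d →ₗ[ℝ] (Fin d → ℝ) := (WithLp.linearEquiv 2 ℝ (Fin d → ℝ)).toLinearMap with hg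
  have hsymT : ∀ x ∈ g '' symS S, -x ∈ g '' symS S := by
    rintro _ ⟨x, hx, rfl⟩
    exact ⟨-x, symS_neg S x hx, map_neg g x⟩
  have hspanT : Submodule.span ℝ (g '' symS S) = ⊤ := by
    rw [Submodule.span_image, hspan, Submodule.map_top, LinearMap.range_eq_top]
    exact (WithLp.linearEquiv 2 ℝ (Fin d → ℝ)).surjective
  have h1 := cfg_main hd (g '' symS S) (hS'.image g) hsymT hspanT
  have h2 : NF (g '' symS S) ≤ NF (symS S) := by
    unfold NF
    rw [← Set.InjOn.ncard_image (preimage_injOn (S := symS S) g)]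
    refine Set.ncard_le_ncard ?_ (Fc_finite hS')
    rintro _ ⟨B, hB, rfl⟩
    exact IsF.preimage g hB
  have h3 : NF (symS S) ≤ (XF (convexHull ℝ S)).ncard := by
    have h4 := NF_le_XF hS'
    rw [hull_symS hsym, ← hfin.cast_ncard_eq] at h4
    exact_mod_cast h4
  refine h1.trans ?_
  exact_mod_cast h2.trans h3

end Pool.Agent.SPL
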