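import Pool.Agent.SPL.LatRec

/-!
# The number of atoms and of coatoms
-/

set_option autoImplicit false

namespace Pool.Agent.SPL

variable {L : Type} [Lattice L] [Finite L] [BoundedOrder L]

theorem na_small {n K : ℕ} {r : L → ℕ} (hr : Rk n r) (hRC : RC L)
    (hK : Nat.card L ≤ 2 ^ (n + K)) (F : L) (hF : r F ≤ 6 * K + 6) :
    na r F ≤ 2 ^ (7 * K + 6) := by
  have h1 : na r F ≤ I ⊥ F := by
    unfold na I
    apply Set.ncard_le_ncard _ (Set.toFinite _)
    intro v hv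
    exact ⟨bot_le, hv.2⟩
  refine h1.trans ((I_le hr hRC hK bot_le).trans ?_)
  apply Nat.pow_le_pow_right (by norm_num)
  rw [hr.bot]
  omega

theorem na_iter {n K : ℕ} {r : L → ℕ} (hr : Rk n r) (hRC : RC L)
    (hK : Nat.card L ≤ 2 ^ (n + K)) (t : ℕ) :
    ∀ F : L, (r F - (6 * K + 5)) * 2 ^ t ≤ 3 ^ t → na r F ≤ 2 ^ ((K + 2) * t + 7 * K + 6) := by
  induction t with
  | zero =>
    intro F hF
    rw [pow_zero, pow_zero, mul_one] at hF
    have h1 := na_small hr hRC hK F (by omega)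
    refine h1.trans (Nat.pow_le_pow_right (by norm_num) ?_)
    omega
  | succ t ih =>
    intro F hF
    by_cases hs : r F ≤ 6 * K + 6
    · have h1 := na_small hr hRC hK F hs
      refine h1.trans (Nat.pow_le_pow_right (by norm_num) ?_)
      nlinarith [Nat.zero_le ((K + 2) * (t + 1))]
    · push Not at hs
      obtain ⟨c, hc1, hc2⟩ : ∃ c, r F + 3 * K + 2 ≤ 3 * c ∧ 3 * c ≤ r F + 3 * K + 4 :=
        ⟨(r F + 3 * K + 4) / 3, by omega, by omega⟩
      have hi : 2 ^ (r F + 3 * K + 2) ≤ 3 ^ (2 * c) := by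
        calc 2 ^ (r F + 3 * K + 2) ≤ 2 ^ (3 * c) := Nat.pow_le_pow_right (by norm_num) hc1
          _ = 8 ^ c := by rw [pow_mul]; norm_num
          _ ≤ 9 ^ c := Nat.pow_le_pow_left (by norm_num) c
          _ = 3 ^ (2 * c) := by rw [pow_mul]; norm_num
      have h1 := na_le hr hRC hK F (2 * c) (2 ^ ((K + 2) * t + 7 * K + 6)) hi (by
        intro F' _ hF'
        apply ih
        have h2 : 3 * (r F' - (6 * K + 5)) ≤ 2 * (r F - (6 * K + 5)) := by omega
        have h3 : 3 * ((r F' - (6 * K + 5)) * 2 ^ t) ≤ 3 * 3 ^ t := by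
          calc 3 * ((r F' - (6 * K + 5)) * 2 ^ t) = (3 * (r F' - (6 * K + 5))) * 2 ^ t := by ring
            _ ≤ (2 * (r F - (6 * K + 5))) * 2 ^ t := Nat.mul_le_mul_right _ h2
            _ = (r F - (6 * K + 5)) * 2 ^ (t + 1) := by ring
            _ ≤ 3 ^ (t + 1) := hF
            _ = 3 * 3 ^ t := by ring
        exact Nat.le_of_mul_le_mul_left h3 (by norm_num))
      refine h1.trans (le_of_eq ?_)
      rw [← pow_add]
      congr 1
      ring

theorem atoms_le {n K : ℕ} {r : L → ℕ} (hr : Rk n r) (hRC : RC L)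
    (hK : Nat.card L ≤ 2 ^ (n + K)) :
    {v : L | r v = 1}.ncard ≤ 2 ^ ((K + 2) * (2 * Nat.clog 2 n + 7)) := by
  have h0 : n ≤ 2 ^ Nat.clog 2 n := Nat.le_pow_clog (by norm_num) n
  have h1 := na_iter hr hRC hK (2 * Nat.clog 2 n) ⊤ (by
    rw [hr.top]
    calc (n - (6 * K + 5)) * 2 ^ (2 * Nat.clog 2 n)
        ≤ 2 ^ Nat.clog 2 n * 2 ^ (2 * Nat.clog 2 n) :=
          Nat.mul_le_mul_right _ ((Nat.sub_le _ _).trans h0)
      _ = 8 ^ Nat.clog 2 n := by
          rw [← pow_add, show Nat.clog 2 n + 2 * Nat.clog 2 n = 3 * Nat.clog 2 n by ring, pow_mul]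
          norm_num
      _ ≤ 9 ^ Nat.clog 2 n := Nat.pow_le_pow_left (by norm_num) _
      _ = 3 ^ (2 * Nat.clog 2 n) := by rw [pow_mul]; norm_num)
  have h2 : {v : L | r v = 1}.ncard = na r (⊤ : L) := by
    unfold na
    congr 1
    ext v
    simp
  rw [h2]
  refine h1.trans (Nat.pow_le_pow_right (by norm_num) ?_)
  nlinarith

theorem coatoms_le {n K : ℕ} {r : L → ℕ} (hr : Rk n r) (hRC : RC L)
    (hK : Nat.card L ≤ 2 ^ (n + K)) (hn : 1 ≤ n) :
    {v : L | r v + 1 = n}.ncard ≤ 2 ^ ((K + 2) * (2 * Nat.clog 2 n + 7)) := by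
  have hK' : Nat.card Lᵒᵈ ≤ 2 ^ (n + K) := hK
  have : Finite Lᵒᵈ := inferInstanceAs (Finite L)
  have h1 := atoms_le (L := Lᵒᵈ) hr.dual hRC.dual hK'
  refine le_trans (le_of_eq ?_) h1
  refine congrArg Set.ncard ?_
  ext v
  have h2 := hr.le v
  show r v + 1 = n ↔ n - r v = 1
  omega

end Pool.Agent.SPL
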