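import Pool.Agent.SPL.Defs

/-!
# Growth of the number of comparable pairs
-/

set_option autoImplicit false

namespace Pool.Agent.SPL

variable {L : Type} [Lattice L] [Finite L]

/-- going up strictly triples the number of pairs -/
theorem T_three_mul (hRC : RC L) {x y z : L} (hxy : x ≤ y) (hyz : y < z) : 3 * T x y ≤ T x z := by
  classical
  have hyz' := hyz.le
  have hB : ∀ b : L, ∃ b', b ≤ y → b' ⊓ y = b ∧ b' ⊔ y = z := by
    intro b
    by_cases hb : b ≤ y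
    · obtain ⟨w, h1, h2⟩ := hRC b y z hb hyz'
      exact ⟨w, fun _ => ⟨h1, h2⟩⟩
    · exact ⟨b, fun h => absurd h hb⟩
  choose B hB using hB
  have hA : ∀ a b : L, ∃ a', a ≤ b → b ≤ B b → a' ⊓ b = a ∧ a' ⊔ b = B b := by
    intro a b
    by_cases h : a ≤ b ∧ b ≤ B b
    · obtain ⟨w, h1, h2⟩ := hRC a b (B b) h.1 h.2
      exact ⟨w, fun _ _ => ⟨h1, h2⟩⟩
    · exact ⟨a, fun h1 h2 => absurd ⟨h1, h2⟩ h⟩
  choose A hA using hA
  have hbB : ∀ b, b ≤ y → b ≤ B b := fun b hb => by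
    conv_lhs => rw [← (hB b hb).1]
    exact inf_le_left
  have hBz : ∀ b, b ≤ y → B b ≤ z := fun b hb => by
    rw [← (hB b hb).2]
    exact le_sup_left
  have hBy : ∀ b, b ≤ y → ¬ B b ≤ y := by
    intro b hb h
    have h1 := (hB b hb).2
    rw [sup_eq_right.2 h] at h1
    exact hyz.ne h1
  set S : Set (L × L) := {p | x ≤ p.1 ∧ p.1 ≤ p.2 ∧ p.2 ≤ y} with hS
  set S' : Set (L × L) := {p | x ≤ p.1 ∧ p.1 ≤ p.2 ∧ p.2 ≤ z} with hS'
  let f2 : L × L → L × L := fun p => (p.1, B p.2)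
  let f3 : L × L → L × L := fun p => (A p.1 p.2, B p.2)
  have hAe : ∀ p ∈ S, A p.1 p.2 ⊓ p.2 = p.1 ∧ A p.1 p.2 ⊔ p.2 = B p.2 := fun p hp =>
    hA p.1 p.2 hp.2.1 (hbB _ hp.2.2)
  have hAB : ∀ p ∈ S, A p.1 p.2 ≤ B p.2 := fun p hp => by
    rw [← (hAe p hp).2]
    exact le_sup_left
  have haA : ∀ p ∈ S, p.1 ≤ A p.1 p.2 := fun p hp => by
    conv_lhs => rw [← (hAe p hp).1]
    exact inf_le_left
  have hAy : ∀ p ∈ S, ¬ A p.1 p.2 ≤ y := by
    intro p hp h
    apply hBy p.2 hp.2.2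
    rw [← (hAe p hp).2]
    exact sup_le h hp.2.2
  have hAi : ∀ p ∈ S, A p.1 p.2 ⊓ y = p.1 := by
    intro p hp
    have h1 : A p.1 p.2 ⊓ y = A p.1 p.2 ⊓ (B p.2 ⊓ y) := by
      rw [← inf_assoc, inf_eq_left.2 (hAB p hp)]
    rw [h1, (hB p.2 hp.2.2).1]
    exact (hAe p hp).1
  have hi2 : Set.InjOn f2 S := by
    intro p hp q hq h
    have h0 : (p.1, B p.2) = (q.1, B q.2) := h
    have h1 : p.1 = q.1 := (Prod.mk.inj h0).1
    have h2 : B p.2 = B q.2 := (Prod.mk.inj h0).2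
    refine Prod.ext h1 ?_
    rw [← (hB p.2 hp.2.2).1, ← (hB q.2 hq.2.2).1, h2]
  have hi3 : Set.InjOn f3 S := by
    intro p hp q hq h
    have h1 : A p.1 p.2 = A q.1 q.2 := congrArg (fun t : L × L => t.1) h
    have h2 : B p.2 = B q.2 := congrArg (fun t : L × L => t.2) h
    refine Prod.ext ?_ ?_
    · rw [← hAi p hp, ← hAi q hq, h1]
    · rw [← (hB p.2 hp.2.2).1, ← (hB q.2 hq.2.2).1, h2]
  have hm1 : S ⊆ S' := fun p hp => ⟨hp.1, hp.2.1, hp.2.2.trans hyz'⟩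
  have hm2 : f2 '' S ⊆ S' := by
    rintro _ ⟨p, hp, rfl⟩
    exact ⟨hp.1, hp.2.1.trans (hbB _ hp.2.2), hBz _ hp.2.2⟩
  have hm3 : f3 '' S ⊆ S' := by
    rintro _ ⟨p, hp, rfl⟩
    exact ⟨hp.1.trans (haA p hp), hAB p hp, hBz _ hp.2.2⟩
  have hd12 : Disjoint S (f2 '' S) := by
    rw [Set.disjoint_left]
    rintro _ h1 ⟨p, hp, rfl⟩
    exact hBy p.2 hp.2.2 h1.2.2
  have hd123 : Disjoint (S ∪ f2 '' S) (f3 '' S) := by
    rw [Set.disjoint_left]
    rintro _ h1 ⟨p, hp, rfl⟩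
    rcases h1 with h1 | ⟨q, hq, h1⟩
    · exact hBy p.2 hp.2.2 h1.2.2
    · have h2 : q.1 = A p.1 p.2 := congrArg Prod.fst h1
      apply hAy p hp
      rw [← h2]
      exact hq.2.1.trans hq.2.2
  have hfin : ∀ U : Set (L × L), U.Finite := fun U => Set.toFinite U
  have hcard : (S ∪ f2 '' S ∪ f3 '' S).ncard = 3 * S.ncard := by
    rw [Set.ncard_union_eq hd123 (hfin _) (hfin _), Set.ncard_union_eq hd12 (hfin _) (hfin _),
      hi2.ncard_image, hi3.ncard_image]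
    ring
  show 3 * S.ncard ≤ S'.ncard
  rw [← hcard]
  exact Set.ncard_le_ncard (Set.union_subset (Set.union_subset hm1 hm2) hm3) (hfin _)

private theorem LatPairs_up [BoundedOrder L] {n : ℕ} {r : L → ℕ} (hr : Rk n r) (hRC : RC L) {x : L}
    (m : ℕ) : ∀ y z : L, x ≤ y → y ≤ z → r z - r y = m → 3 ^ m * T x y ≤ T x z := by
  induction m using Nat.strong_induction_on with
  | _ m ih =>
    intro y z hxy hyz hm
    rcases eq_or_lt_of_le hyz with rfl | hlt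
    · rw [Nat.sub_self] at hm
      subst hm
      simp
    · have h1 : r y < r z := hr.mono hlt
      by_cases h2 : r z = r y + 1
      · have h3 : m = 1 := by omega
        subst h3
        rw [pow_one]
        exact T_three_mul hRC hxy hlt
      · obtain ⟨w, hw1, hw2⟩ := hr.mid y z hyz (by omega)
        have h3 : r y < r w := hr.mono hw1
        have h4 : r w < r z := hr.mono hw2
        have h5 := ih (r w - r y) (by omega) y w hxy hw1.le rfl
        have h6 := ih (r z - r w) (by omega) w z (hxy.trans hw1.le) hw2.le rfl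
        have h7 : m = (r z - r w) + (r w - r y) := by omega
        rw [h7, pow_add, mul_assoc]
        exact (Nat.mul_le_mul_left _ h5).trans h6

theorem T_pow [BoundedOrder L] {n : ℕ} {r : L → ℕ} (hr : Rk n r) (hRC : RC L) {x z : L}
    (hxz : x ≤ z) : 3 ^ (r z - r x) ≤ T x z := by
  have h1 := LatPairs_up hr hRC (x := x) (r z - r x) x z le_rfl hxz rfl
  have h2 : 1 ≤ T x x := by
    unfold T
    have h3 : (x, x) ∈ {p : L × L | x ≤ p.1 ∧ p.1 ≤ p.2 ∧ p.2 ≤ x} := ⟨le_rfl, le_rfl, le_rfl⟩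
    exact Nat.pos_of_ne_zero (Set.ncard_ne_zero_of_mem h3 (Set.toFinite _))
  calc 3 ^ (r z - r x) = 3 ^ (r z - r x) * 1 := (mul_one _).symm
    _ ≤ 3 ^ (r z - r x) * T x x := Nat.mul_le_mul_left _ h2
    _ ≤ T x z := h1

end Pool.Agent.SPL
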