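import Pool.Agent.SPL.LatUp
import Pool.Agent.SPL.LatPairs

/-!
# Few elements of large rank
-/

set_option autoImplicit false

namespace Pool.Agent.SPL

open scoped Classical in
private theorem high_I {L : Type} [Lattice L] [Fintype L] (x y : L) :
    I x y = ∑ z : L, if x ≤ z ∧ z ≤ y then 1 else 0 := by
  unfold I
  rw [Set.ncard_eq_toFinset_card', ← Finset.card_filter]
  congr 1
  ext z
  simp

open scoped Classical in
private theorem high_T {L : Type} [Lattice L] [BoundedOrder L] [Fintype L] (F : L) :
    T ⊥ F = ∑ b : L, ∑ a : L, if a ≤ b ∧ b ≤ F then 1 else 0 := by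
  unfold T
  rw [Finset.sum_comm, Set.ncard_eq_toFinset_card',
    ← Fintype.sum_prod_type' (fun a b : L => if a ≤ b ∧ b ≤ F then 1 else 0),
    ← Finset.card_filter]
  congr 1
  ext p
  simp

variable {L : Type} [Lattice L] [Finite L] [BoundedOrder L]

open scoped Classical in
theorem high_le {n K : ℕ} {r : L → ℕ} (hr : Rk n r) (hRC : RC L)
    (hK : Nat.card L ≤ 2 ^ (n + K)) (y : L) (i : ℕ) :
    3 ^ i * {F | F ≤ y ∧ i ≤ r F}.ncard ≤ 2 ^ (2 * r y + 3 * K) := by
  have : Fintype L := Fintype.ofFinite L
  have h1 : {F | F ≤ y ∧ i ≤ r F}.ncard = ∑ F : L, if F ≤ y ∧ i ≤ r F then 1 else 0 := by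
    rw [Set.ncard_eq_toFinset_card', ← Finset.card_filter]
    congr 1
    ext z
    simp
  rw [h1, Finset.mul_sum]
  calc ∑ F : L, 3 ^ i * (if F ≤ y ∧ i ≤ r F then 1 else 0)
      ≤ ∑ F : L, ∑ b : L, ∑ a : L, (if a ≤ b ∧ b ≤ F ∧ F ≤ y then 1 else 0) := by
        refine Finset.sum_le_sum fun F _ => ?_
        by_cases h : F ≤ y ∧ i ≤ r F
        · rw [if_pos h, mul_one]
          have h2 : 3 ^ i ≤ T ⊥ F := by
            refine le_trans (Nat.pow_le_pow_right (by norm_num) ?_) (T_pow hr hRC bot_le)
            rw [hr.bot, Nat.sub_zero]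
            exact h.2
          rw [high_T] at h2
          refine le_trans h2 (le_of_eq ?_)
          refine Finset.sum_congr rfl fun b _ => Finset.sum_congr rfl fun a _ => ?_
          simp only [h.1, and_true]
        · rw [if_neg h, mul_zero]
          exact Nat.zero_le _
    _ = ∑ b : L, if b ≤ y then I ⊥ b * I b y else 0 := by
        rw [Finset.sum_comm]
        refine Finset.sum_congr rfl fun b _ => ?_
        split_ifs with hb
        · rw [high_I, high_I, Finset.sum_mul_sum, Finset.sum_comm]
          refine Finset.sum_congr rfl fun a _ => Finset.sum_congr rfl fun F _ => ?_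
          by_cases h3 : a ≤ b
          · by_cases h4 : b ≤ F ∧ F ≤ y
            · simp [h3, h4]
            · simp [h3, h4]
          · simp [h3]
        · refine Finset.sum_eq_zero fun F _ => Finset.sum_eq_zero fun a _ => ?_
          rw [if_neg]
          rintro ⟨-, h4, h5⟩
          exact hb (h4.trans h5)
    _ ≤ ∑ b : L, (if ⊥ ≤ b ∧ b ≤ y then 1 else 0) * 2 ^ (r y + 2 * K) := by
        refine Finset.sum_le_sum fun b _ => ?_
        split_ifs with hb hb' hb'
        · have h5 := I_le hr hRC hK (bot_le : ⊥ ≤ b)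
          have h6 := I_le hr hRC hK hb
          rw [hr.bot, Nat.sub_zero] at h5
          have h7 := hr.mono.monotone hb
          rw [one_mul]
          calc I ⊥ b * I b y ≤ 2 ^ (r b + K) * 2 ^ (r y - r b + K) := Nat.mul_le_mul h5 h6
            _ = 2 ^ (r y + 2 * K) := by
              rw [← pow_add]
              congr 1
              omega
        · exact absurd ⟨bot_le, hb⟩ hb'
        · exact Nat.zero_le _
        · exact Nat.zero_le _
    _ = I ⊥ y * 2 ^ (r y + 2 * K) := by
        rw [← Finset.sum_mul, high_I]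
    _ ≤ 2 ^ (r y + K) * 2 ^ (r y + 2 * K) := by
        refine Nat.mul_le_mul_right _ ?_
        have h5 := I_le hr hRC hK (bot_le : ⊥ ≤ y)
        rw [hr.bot, Nat.sub_zero] at h5
        exact h5
    _ = 2 ^ (2 * r y + 3 * K) := by
        rw [← pow_add]
        congr 1
        omega

end Pool.Agent.SPL
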