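import Pool.Agent.SPL.LatHigh

/-!
# The recursion for the number of atoms
-/

set_option autoImplicit false

namespace Pool.Agent.SPL

open scoped Classical in
private theorem rec_na {L : Type} [Lattice L] [Fintype L] (r : L → ℕ) (F : L) :
    na r F = ∑ v : L, if r v = 1 ∧ v ≤ F then 1 else 0 := by
  unfold na
  rw [Set.ncard_eq_toFinset_card', ← Finset.card_filter]
  congr 1
  ext z
  simp

open scoped Classical in
private theorem rec_I {L : Type} [Lattice L] [Fintype L] (x y : L) :
    I x y = ∑ z : L, if x ≤ z ∧ z ≤ y then 1 else 0 := by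
  unfold I
  rw [Set.ncard_eq_toFinset_card', ← Finset.card_filter]
  congr 1
  ext z
  simp

private theorem rec_I_self {L : Type} [Lattice L] (x : L) : I x x = 1 := by
  unfold I
  rw [Set.Icc_self, Set.ncard_singleton]

private theorem rec_na_mono {L : Type} [Lattice L] [Finite L] (r : L → ℕ) {F y : L}
    (h : F ≤ y) : na r F ≤ na r y := by
  unfold na
  apply Set.ncard_le_ncard _ (Set.toFinite _)
  intro v hv
  exact ⟨hv.1, hv.2.trans h⟩

open scoped Classical in
private theorem rec_key {L : Type} [Lattice L] [Fintype L] [BoundedOrder L] {n : ℕ}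
    {r : L → ℕ} (hr : Rk n r) (hRC : RC L) (y : L) :
    na r y * 2 ^ (r y - 1) ≤ ∑ F : L, if F ≤ y then na r F else 0 := by
  calc na r y * 2 ^ (r y - 1)
      = ∑ v : L, (if r v = 1 ∧ v ≤ y then 1 else 0) * 2 ^ (r y - 1) := by
        rw [rec_na, Finset.sum_mul]
    _ ≤ ∑ v : L, ∑ F : L, (if r v = 1 ∧ v ≤ F ∧ F ≤ y then 1 else 0) := by
        refine Finset.sum_le_sum fun v _ => ?_
        by_cases h : r v = 1 ∧ v ≤ y
        · rw [if_pos h, one_mul]
          have h1 := I_pow_up hr hRC (le_refl v) h.2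
          rw [rec_I_self, mul_one, h.1, rec_I] at h1
          refine h1.trans (le_of_eq ?_)
          refine Finset.sum_congr rfl fun F _ => ?_
          simp only [h.1, true_and]
        · rw [if_neg h, zero_mul]
          exact Nat.zero_le _
    _ = ∑ F : L, if F ≤ y then na r F else 0 := by
        rw [Finset.sum_comm]
        refine Finset.sum_congr rfl fun F _ => ?_
        by_cases h : F ≤ y
        · rw [if_pos h, rec_na]
          refine Finset.sum_congr rfl fun v _ => ?_
          simp only [h, and_true]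
        · rw [if_neg h]
          refine Finset.sum_eq_zero fun v _ => ?_
          rw [if_neg]
          rintro ⟨-, -, h3⟩
          exact h h3

variable {L : Type} [Lattice L] [Finite L] [BoundedOrder L]

open scoped Classical in
theorem na_le {n K : ℕ} {r : L → ℕ} (hr : Rk n r) (hRC : RC L)
    (hK : Nat.card L ≤ 2 ^ (n + K)) (y : L) (i B : ℕ) (hi : 2 ^ (r y + 3 * K + 2) ≤ 3 ^ i)
    (hB : ∀ F, F ≤ y → r F < i → na r F ≤ B) : na r y ≤ 2 ^ (K + 2) * B := by
  have : Fintype L := Fintype.ofFinite L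
  rcases Nat.eq_zero_or_pos (r y) with h0 | hpos
  · have h1 : na r y = 0 := by
      unfold na
      rw [Set.ncard_eq_zero (Set.toFinite _)]
      ext v
      simp only [Set.mem_setOf_eq, Set.mem_empty_iff_false, iff_false]
      rintro ⟨h2, h3⟩
      have h4 := hr.mono.monotone h3
      omega
    rw [h1]
    exact Nat.zero_le _
  -- the elements of large rank
  set H : ℕ := {F | F ≤ y ∧ i ≤ r F}.ncard with hH
  have hH' : H = ∑ F : L, if F ≤ y ∧ i ≤ r F then 1 else 0 := by
    rw [hH, Set.ncard_eq_toFinset_card', ← Finset.card_filter]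
    congr 1
    ext z
    simp
  have h4H : 4 * H ≤ 2 ^ r y := by
    have h1 := high_le hr hRC hK y i
    rw [← hH] at h1
    have h2 : 2 ^ (r y + 3 * K + 2) * H ≤ 2 ^ (2 * r y + 3 * K) :=
      (Nat.mul_le_mul_right _ hi).trans h1
    have h3 : 2 ^ (r y + 3 * K + 2) * H = 2 ^ (r y + 3 * K) * (4 * H) := by
      rw [pow_add _ (r y + 3 * K) 2]
      ring
    have h4 : 2 ^ (2 * r y + 3 * K) = 2 ^ (r y + 3 * K) * 2 ^ r y := by
      rw [← pow_add]
      congr 1
      omega
    rw [h3, h4] at h2
    exact Nat.le_of_mul_le_mul_left h2 (by positivity)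
  have hI : I ⊥ y ≤ 2 ^ (r y + K) := by
    have h1 := I_le hr hRC hK (bot_le : ⊥ ≤ y)
    rwa [hr.bot, Nat.sub_zero] at h1
  have hkey := rec_key hr hRC y
  have hsplit : (∑ F : L, if F ≤ y then na r F else 0) ≤ I ⊥ y * B + H * na r y := by
    rw [rec_I, hH', Finset.sum_mul, Finset.sum_mul, ← Finset.sum_add_distrib]
    refine Finset.sum_le_sum fun F _ => ?_
    by_cases h : F ≤ y
    · rw [if_pos h, if_pos ⟨bot_le, h⟩, one_mul]
      by_cases h' : r F < i
      · exact (hB F h h').trans (Nat.le_add_right _ _)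
      · rw [if_pos ⟨h, not_lt.1 h'⟩, one_mul]
        exact (rec_na_mono r h).trans (Nat.le_add_left _ _)
    · rw [if_neg h]
      exact Nat.zero_le _
  have hpow : 2 ^ r y = 2 * 2 ^ (r y - 1) := by
    rw [← pow_succ']
    congr 1
    omega
  have h1 : na r y * 2 ^ (r y - 1) ≤ 2 ^ (r y + K) * B + H * na r y :=
    hkey.trans (hsplit.trans (Nat.add_le_add_right (Nat.mul_le_mul_right _ hI) _))
  have h2 : 2 ^ r y * na r y ≤ 2 ^ r y * (2 ^ (K + 2) * B) := by
    have h3 : 2 ^ (r y + K) = 2 ^ r y * 2 ^ K := pow_add _ _ _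
    have h4 : 2 ^ (K + 2) = 4 * 2 ^ K := by
      rw [pow_add]
      ring
    rw [h3] at h1
    rw [h4]
    have h5 : 4 * H * na r y ≤ 2 ^ r y * na r y := Nat.mul_le_mul_right _ h4H
    have h6 : 4 * (na r y * 2 ^ (r y - 1)) = 2 * (2 ^ r y * na r y) := by
      rw [hpow]
      ring
    nlinarith
  exact Nat.le_of_mul_le_mul_left h2 (by positivity)

end Pool.Agent.SPL
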