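import Pool.Agent.SPL.Defs

/-!
# Growth of intervals
-/

set_option autoImplicit false

namespace Pool.Agent.SPL

variable {L : Type} [Lattice L] [Finite L]

/-- going up strictly doubles the interval -/
theorem I_two_mul (hRC : RC L) {x y z : L} (hxy : x ≤ y) (hyz : y < z) : 2 * I x y ≤ I x z := by
  have h : ∀ u : L, u ≤ y → ∃ w, w ⊓ y = u ∧ w ⊔ y = z := fun u hu => hRC u y z hu hyz.le
  choose! f hf1 hf2 using h
  unfold I
  have hinj : Set.InjOn f (Set.Icc x y) := by
    intro u hu v hv huv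
    rw [← hf1 u hu.2, huv, hf1 v hv.2]
  have hdisj : Disjoint (Set.Icc x y) (f '' Set.Icc x y) := by
    rw [Set.disjoint_left]
    rintro _ hw ⟨u, hu, rfl⟩
    have h1 := hf2 u hu.2
    rw [sup_eq_right.2 hw.2] at h1
    exact hyz.ne h1
  have hsub : Set.Icc x y ∪ f '' Set.Icc x y ⊆ Set.Icc x z := by
    rintro w (hw | ⟨u, hu, rfl⟩)
    · exact ⟨hw.1, hw.2.trans hyz.le⟩
    · refine ⟨?_, ?_⟩
      · calc x ≤ u := hu.1
          _ = f u ⊓ y := (hf1 u hu.2).symm
          _ ≤ f u := inf_le_left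
      · calc f u ≤ f u ⊔ y := le_sup_left
          _ = z := hf2 u hu.2
  have h1 := Set.ncard_le_ncard hsub (Set.toFinite _)
  rw [Set.ncard_union_eq hdisj (Set.toFinite _) (Set.toFinite _), Set.InjOn.ncard_image hinj] at h1
  omega

theorem LatUp_aux [BoundedOrder L] {n : ℕ} {r : L → ℕ} (hr : Rk n r) (hRC : RC L) (x : L) :
    ∀ (m : ℕ) (y z : L), x ≤ y → y ≤ z → r z - r y = m → 2 ^ m * I x y ≤ I x z := by
  intro m
  induction m using Nat.strong_induction_on with
  | _ m ih =>
    intro y z hxy hyz hm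
    rcases eq_or_lt_of_le hyz with h | h
    · subst h
      rw [Nat.sub_self] at hm
      subst hm
      simp
    · have h1 : r y < r z := hr.mono h
      by_cases h2 : r y + 2 ≤ r z
      · obtain ⟨w, hw1, hw2⟩ := hr.mid y z hyz h2
        have h3 : r y < r w := hr.mono hw1
        have h4 : r w < r z := hr.mono hw2
        have e1 := ih (r w - r y) (by omega) y w hxy hw1.le rfl
        have e2 := ih (r z - r w) (by omega) w z (hxy.trans hw1.le) hw2.le rfl
        have h5 : m = (r z - r w) + (r w - r y) := by omega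
        rw [h5, pow_add, mul_assoc]
        exact (Nat.mul_le_mul_left _ e1).trans e2
      · have h3 : m = 1 := by omega
        rw [h3, pow_one]
        exact I_two_mul hRC hxy h

theorem I_pow_up [BoundedOrder L] {n : ℕ} {r : L → ℕ} (hr : Rk n r) (hRC : RC L) {x y z : L}
    (hxy : x ≤ y) (hyz : y ≤ z) : 2 ^ (r z - r y) * I x y ≤ I x z :=
  LatUp_aux hr hRC x _ y z hxy hyz rfl

/-- the dual statement -/
theorem I_pow_down [BoundedOrder L] {n : ℕ} {r : L → ℕ} (hr : Rk n r) (hRC : RC L) {x y z : L}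
    (hxy : x ≤ y) (hyz : y ≤ z) : 2 ^ (r y - r x) * I y z ≤ I x z := by
  have h1 : OrderDual.toDual z ≤ OrderDual.toDual y := hyz
  have h2 : OrderDual.toDual y ≤ OrderDual.toDual x := hxy
  have h := I_pow_up (L := Lᵒᵈ) hr.dual hRC.dual h1 h2
  rw [I_dual, I_dual] at h
  have e : (n - r (OrderDual.ofDual (OrderDual.toDual x))) -
      (n - r (OrderDual.ofDual (OrderDual.toDual y))) = r y - r x := by
    have h3 := hr.le x
    have h4 := hr.le y
    rw [OrderDual.ofDual_toDual, OrderDual.ofDual_toDual]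
    omega
  rw [e] at h
  exact h

theorem I_le [BoundedOrder L] {n K : ℕ} {r : L → ℕ} (hr : Rk n r) (hRC : RC L)
    (hK : Nat.card L ≤ 2 ^ (n + K)) {x y : L} (hxy : x ≤ y) : I x y ≤ 2 ^ (r y - r x + K) := by
  have h1 := I_pow_up hr hRC hxy (le_top : y ≤ ⊤)
  have h2 := I_pow_down hr hRC (bot_le : ⊥ ≤ x) (le_top : x ≤ ⊤)
  rw [hr.top] at h1
  rw [hr.bot, Nat.sub_zero] at h2
  have h3 : I (⊥ : L) ⊤ = Nat.card L := by
    unfold I
    rw [Set.Icc_bot_top, Set.ncard_univ]
  rw [h3] at h2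
  have h4 := hr.mono.monotone hxy
  have h5 := hr.le y
  have h6 : 2 ^ (r x) * (2 ^ (n - r y) * I x y) ≤ 2 ^ (n + K) :=
    ((Nat.mul_le_mul_left _ h1).trans h2).trans hK
  have h7 : n + K = r x + (n - r y) + (r y - r x + K) := by omega
  rw [h7, pow_add, pow_add _ (r x), mul_assoc (2 ^ r x)] at h6
  have h8 := Nat.le_of_mul_le_mul_left h6 (by positivity)
  exact Nat.le_of_mul_le_mul_left h8 (by positivity)

end Pool.Agent.SPL
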