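import Mathlib

/-!
# Random signs
-/

set_option autoImplicit false

namespace Pool.Agent.SPL

open Matrix

/-- all sign vectors -/
noncomputable def sgn {d : ℕ} (s : Fin d → Bool) : Fin d → ℝ := fun i => if s i then 1 else -1

/-- the exponential moment of a Rademacher sum -/
theorem sum_exp_le {d : ℕ} (u : Fin d → ℝ) :
    ∑ s : Fin d → Bool, Real.exp (u ⬝ᵥ sgn s) ≤ 2 ^ d * Real.exp ((∑ i, u i ^ 2) / 2) := by
  have h1 : ∀ s : Fin d → Bool, Real.exp (u ⬝ᵥ sgn s) =
      ∏ i, (fun (i : Fin d) (b : Bool) => Real.exp (u i * (if b then 1 else -1))) i (s i) := by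
    intro s
    unfold dotProduct sgn
    rw [Real.exp_sum]
  have h2 : ∑ s : Fin d → Bool, Real.exp (u ⬝ᵥ sgn s) =
      ∏ i : Fin d, ∑ b : Bool, Real.exp (u i * (if b then 1 else -1)) := by
    rw [Finset.prod_univ_sum, Fintype.piFinset_univ]
    exact Finset.sum_congr rfl fun s _ => h1 s
  have h3 : ∀ i : Fin d, ∑ b : Bool, Real.exp (u i * (if b then 1 else -1)) ≤
      2 * Real.exp (u i ^ 2 / 2) := by
    intro i
    have h4 := Real.cosh_le_exp_half_sq (u i)
    rw [Real.cosh_eq] at h4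
    rw [Fintype.sum_bool]
    simp only [if_true, Bool.false_eq_true, if_false, mul_one, mul_neg]
    linarith
  rw [h2]
  calc ∏ i : Fin d, ∑ b : Bool, Real.exp (u i * (if b then 1 else -1)) ≤
      ∏ i : Fin d, (2 * Real.exp (u i ^ 2 / 2)) :=
        Finset.prod_le_prod (fun i _ => Finset.sum_nonneg fun b _ => (Real.exp_pos _).le)
          (fun i _ => h3 i)
    _ = 2 ^ d * Real.exp ((∑ i, u i ^ 2) / 2) := by
        rw [Finset.prod_mul_distrib, Finset.prod_const, Finset.card_univ, Fintype.card_fin,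
          ← Real.exp_sum, Finset.sum_div]

private lemma sgn_part {d : ℕ} {α : Type} (A : Finset α) (u : α → Fin d → ℝ) (p : ℝ) (hp : 0 < p)
    (hu : ∀ a ∈ A, ∑ i, u a i ^ 2 ≤ p) :
    ∃ l : ℝ, 0 ≤ l ∧ ∑ s : Fin d → Bool, ∑ a ∈ A,
      Real.exp (l * (u a ⬝ᵥ sgn s - √(2 * p * Real.log (3 * (A.card : ℝ))))) ≤ 2 ^ d / 3 := by
  rcases A.eq_empty_or_nonempty with rfl | hA
  · refine ⟨0, le_refl 0, ?_⟩
    simp only [Finset.sum_empty, Finset.sum_const_zero]
    positivity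
  have hc : (1 : ℝ) ≤ (A.card : ℝ) := by
    exact_mod_cast hA.card_pos
  set L := Real.log (3 * (A.card : ℝ)) with hL
  have hL0 : 0 < L := Real.log_pos (by linarith)
  set t := √(2 * p * L) with ht
  have ht2 : t * t = 2 * p * L := Real.mul_self_sqrt (by positivity)
  have ht0 : 0 ≤ t := Real.sqrt_nonneg _
  refine ⟨t / p, div_nonneg ht0 hp.le, ?_⟩
  rw [Finset.sum_comm]
  have h1 : ∀ a ∈ A, ∑ s : Fin d → Bool, Real.exp (t / p * (u a ⬝ᵥ sgn s - t)) ≤
      2 ^ d * Real.exp (-L) := by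
    intro a ha
    have h2 : ∀ s : Fin d → Bool, Real.exp (t / p * (u a ⬝ᵥ sgn s - t)) =
        Real.exp (-(2 * L)) * Real.exp (((t / p) • u a) ⬝ᵥ sgn s) := by
      intro s
      rw [← Real.exp_add, smul_dotProduct, smul_eq_mul]
      congr 1
      have h3 : t / p * t = 2 * L := by
        rw [div_mul_eq_mul_div, ht2]
        field_simp
      linarith
    rw [Finset.sum_congr rfl fun s _ => h2 s, ← Finset.mul_sum]
    have h4 := sum_exp_le ((t / p) • u a)
    have h5 : (∑ i, ((t / p) • u a) i ^ 2) / 2 ≤ L := by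
      have h6 : ∑ i, ((t / p) • u a) i ^ 2 = (t / p) ^ 2 * ∑ i, u a i ^ 2 := by
        rw [Finset.mul_sum]
        refine Finset.sum_congr rfl fun i _ => ?_
        rw [Pi.smul_apply, smul_eq_mul, mul_pow]
      have h7 : (t / p) ^ 2 * p = 2 * L := by
        rw [div_pow, pow_two t, ht2]
        field_simp
      have h8 := mul_le_mul_of_nonneg_left (hu a ha) (sq_nonneg (t / p))
      rw [h6]
      linarith
    have h9 : Real.exp ((∑ i, ((t / p) • u a) i ^ 2) / 2) ≤ Real.exp L := Real.exp_le_exp.2 h5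
    calc Real.exp (-(2 * L)) * ∑ s : Fin d → Bool, Real.exp (((t / p) • u a) ⬝ᵥ sgn s) ≤
        Real.exp (-(2 * L)) * (2 ^ d * Real.exp L) := by
          refine mul_le_mul_of_nonneg_left (h4.trans ?_) (Real.exp_pos _).le
          exact mul_le_mul_of_nonneg_left h9 (by positivity)
      _ = 2 ^ d * (Real.exp (-(2 * L)) * Real.exp L) := by ring
      _ = 2 ^ d * Real.exp (-L) := by
          rw [← Real.exp_add]
          congr 2
          ring
  refine (Finset.sum_le_sum h1).trans ?_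
  rw [Finset.sum_const, nsmul_eq_mul, Real.exp_neg, hL, Real.exp_log (by linarith)]
  have h3 : (A.card : ℝ) ≠ 0 := by linarith
  rw [le_div_iff₀ (by norm_num : (0 : ℝ) < 3)]
  refine le_of_eq ?_
  field_simp

/-- signs that are good for two families of vectors -/
theorem exists_signs {d : ℕ} {α β : Type} (A : Finset α) (B : Finset β) (u : α → Fin d → ℝ)
    (v : β → Fin d → ℝ) (p q : ℝ) (hp : 0 < p) (hq : 0 < q)
    (hu : ∀ a ∈ A, ∑ i, u a i ^ 2 ≤ p) (hv : ∀ b ∈ B, ∑ i, v b i ^ 2 ≤ q) :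
    ∃ s : Fin d → Bool,
      (∀ a ∈ A, u a ⬝ᵥ sgn s ≤ √(2 * p * Real.log (3 * (A.card : ℝ)))) ∧
      (∀ b ∈ B, v b ⬝ᵥ sgn s ≤ √(2 * q * Real.log (3 * (B.card : ℝ)))) := by
  by_contra hcon
  push Not at hcon
  obtain ⟨l, hl, h1⟩ := sgn_part A u p hp hu
  obtain ⟨m, hm, h2⟩ := sgn_part B v q hq hv
  have h3 : ∀ s : Fin d → Bool, (1 : ℝ) ≤
      ∑ a ∈ A, Real.exp (l * (u a ⬝ᵥ sgn s - √(2 * p * Real.log (3 * (A.card : ℝ))))) +
      ∑ b ∈ B, Real.exp (m * (v b ⬝ᵥ sgn s - √(2 * q * Real.log (3 * (B.card : ℝ))))) := by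
    intro s
    have p1 : 0 ≤ ∑ a ∈ A,
        Real.exp (l * (u a ⬝ᵥ sgn s - √(2 * p * Real.log (3 * (A.card : ℝ))))) :=
      Finset.sum_nonneg fun a _ => (Real.exp_pos _).le
    have p2 : 0 ≤ ∑ b ∈ B,
        Real.exp (m * (v b ⬝ᵥ sgn s - √(2 * q * Real.log (3 * (B.card : ℝ))))) :=
      Finset.sum_nonneg fun a _ => (Real.exp_pos _).le
    by_cases hs : ∀ a ∈ A, u a ⬝ᵥ sgn s ≤ √(2 * p * Real.log (3 * (A.card : ℝ)))
    · obtain ⟨b, hb, hb2⟩ := hcon s hs
      have h5 : (1 : ℝ) ≤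
          Real.exp (m * (v b ⬝ᵥ sgn s - √(2 * q * Real.log (3 * (B.card : ℝ))))) := by
        rw [← Real.exp_zero]
        exact Real.exp_le_exp.2 (mul_nonneg hm (sub_nonneg.2 hb2.le))
      have h6 := Finset.single_le_sum (f := fun b =>
        Real.exp (m * (v b ⬝ᵥ sgn s - √(2 * q * Real.log (3 * (B.card : ℝ))))))
        (fun a _ => (Real.exp_pos _).le) hb
      linarith
    · push Not at hs
      obtain ⟨a, ha, ha2⟩ := hs
      have h5 : (1 : ℝ) ≤
          Real.exp (l * (u a ⬝ᵥ sgn s - √(2 * p * Real.log (3 * (A.card : ℝ))))) := by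
        rw [← Real.exp_zero]
        exact Real.exp_le_exp.2 (mul_nonneg hl (sub_nonneg.2 ha2.le))
      have h6 := Finset.single_le_sum (f := fun a =>
        Real.exp (l * (u a ⬝ᵥ sgn s - √(2 * p * Real.log (3 * (A.card : ℝ))))))
        (fun a _ => (Real.exp_pos _).le) ha
      linarith
  have h4 := Finset.sum_le_sum (fun (s : Fin d → Bool) (_ : s ∈ Finset.univ) => h3 s)
  rw [Finset.sum_add_distrib, Finset.sum_const, Finset.card_univ, nsmul_eq_mul, mul_one] at h4
  have h5 : ((Fintype.card (Fin d → Bool) : ℕ) : ℝ) = 2 ^ d := by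
    rw [Fintype.card_fun, Fintype.card_bool, Fintype.card_fin]
    norm_num
  rw [h5] at h4
  have h6 : (0 : ℝ) < 2 ^ d := by positivity
  linarith

end Pool.Agent.SPL
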